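import Pool.Agent.TH823.MRS.Circ5

/-!
# Short averages of `F` along arithmetic progressions, with linear phases
-/

set_option autoImplicit false

namespace Pool.Agent.TH893.PC

open Finset
open Pool.Agent.TH823.MRS (ExpoSmall win_l1)
open Pool.Agent.H373R2.T7 (exI)
open Pool.Agent.H807R2.Dav (ee norm_ee ee_add ee_int ee_pow ee_zero)

/-- detection of the multiples of `c` -/
lemma detect {c : ℕ} (hc : 1 ≤ c) (l : ℕ) : ∑ b ∈ range c, ee ((l : ℝ) * ((b : ℝ) / c)) = if c ∣ l then (c : ℂ) else 0 := by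
  have hc0 : (c : ℝ) ≠ 0 := by exact_mod_cast (by omega : c ≠ 0)
  have hζ : IsPrimitiveRoot (ee (1 / c)) c := by
    have h1 := Complex.isPrimitiveRoot_exp c (by omega)
    convert h1 using 1
    unfold ee
    congr 1
    push_cast
    ring
  have h2 : ∀ b : ℕ, ee ((l : ℝ) * ((b : ℝ) / c)) = (ee (1 / c) ^ l) ^ b := by
    intro b
    rw [← pow_mul, ← ee_pow]
    congr 1
    push_cast
    ring
  rw [sum_congr rfl fun b _ => h2 b]
  split_ifs with h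
  · rw [(hζ.pow_eq_one_iff_dvd l).2 h]
    simp
  · have h3 : ee (1 / c) ^ l ≠ 1 := fun h' => h ((hζ.pow_eq_one_iff_dvd l).1 h')
    have h4 := mul_geom_sum (ee (1 / c) ^ l) c
    have h5 : (ee (1 / c) ^ l) ^ c = 1 := by
      rw [← pow_mul, mul_comm, pow_mul, hζ.pow_eq_one, one_pow]
    rw [h5, sub_self] at h4
    rcases mul_eq_zero.1 h4 with h6 | h6
    · exact absurd (sub_eq_zero.1 h6) h3
    · exact h6

lemma sum_multiples {c : ℕ} (hc : 1 ≤ c) (K : ℕ) (G : ℕ → ℂ) :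
    ∑ l ∈ range (c * K), (if c ∣ l then G l else 0) = ∑ k ∈ range K, G (c * k) := by
  induction K with
  | zero => simp
  | succ K ih =>
    rw [Nat.mul_succ, sum_range_add, ih, sum_range_succ]
    congr 1
    rw [sum_eq_single 0]
    · simp
    · intro r hr h0
      rw [if_neg]
      intro h1
      have h2 : c ∣ r := (Nat.dvd_add_right (dvd_mul_right c K)).1 h1
      have h3 := Nat.le_of_dvd (by omega) h2
      have h4 := mem_range.1 hr
      omega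
    · intro h
      exact absurd (mem_range.2 (by omega)) h

/-- a progression is a combination of twisted full sums -/
lemma prog_eq {c : ℕ} (hc : 1 ≤ c) (K : ℕ) (G : ℕ → ℂ) (β : ℝ) :
    (c : ℂ) * ∑ k ∈ range K, ee ((k : ℝ) * β) * G (c * k) =
      ∑ b ∈ range c, ∑ l ∈ range (c * K), ee ((l : ℝ) * ((β + b) / c)) * G l := by
  have hc0 : (c : ℝ) ≠ 0 := by exact_mod_cast (by omega : c ≠ 0)
  rw [sum_comm]
  have h1 : ∀ l ∈ range (c * K), ∑ b ∈ range c, ee ((l : ℝ) * ((β + b) / c)) * G l =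
      if c ∣ l then (c : ℂ) * (ee ((l : ℝ) * (β / c)) * G l) else 0 := by
    intro l _
    have h2 : ∀ b ∈ range c, ee ((l : ℝ) * ((β + b) / c)) * G l =
        ee ((l : ℝ) * ((b : ℝ) / c)) * (ee ((l : ℝ) * (β / c)) * G l) := by
      intro b _
      rw [← mul_assoc, ← ee_add]
      congr 2
      ring
    rw [sum_congr rfl h2, ← sum_mul, detect hc l]
    split_ifs
    · rfl
    · rw [zero_mul]
  rw [sum_congr rfl h1, sum_multiples hc K (fun l => (c : ℂ) * (ee ((l : ℝ) * (β / c)) * G l)), mul_sum]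
  refine sum_congr rfl fun k _ => ?_
  congr 3
  push_cast
  field_simp

/-- `F` has small averages over short progressions, with linear phases, on average over the position. -/
def Base (F : ℤ → ℂ) : Prop := ∀ c : ℤ, c ≠ 0 → ∀ ε : ℝ, 0 < ε → ∃ K₀ : ℕ, ∀ K : ℕ, K₀ ≤ K → ∃ Y₀ : ℕ, ∀ Y : ℕ, Y₀ ≤ Y →
  ∀ β : ℝ, ∑ m ∈ Icc (-(Y : ℤ)) Y, ‖∑ k ∈ range K, ee ((k : ℝ) * β) * F (m + c * k)‖ ≤ ε * K * Y

lemma exI_le {h : ℕ → ℂ} (hb : ∀ n, ‖h n‖ ≤ 1) (k : ℤ) : ‖exI h k‖ ≤ 1 := by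
  unfold exI
  split_ifs
  · exact hb _
  · simp

/-- full sums -/
lemma full_sum {h : ℕ → ℂ} (hb : ∀ n, ‖h n‖ ≤ 1) (hE : ExpoSmall h) {ε : ℝ} (hε : 0 < ε) :
    ∃ W₀ : ℕ, ∀ W : ℕ, W₀ ≤ W → ∃ Y₀ : ℕ, ∀ Y : ℕ, Y₀ ≤ Y → ∀ β : ℝ,
      ∑ m ∈ Icc (-(Y : ℤ)) Y, ‖∑ l ∈ range W, ee ((l : ℝ) * β) * exI h (m + l)‖ ≤ ε * W * Y := by
  obtain ⟨W₀, X₀, h0⟩ := win_l1 h hE (ε / 4) (by positivity)
  refine ⟨W₀ + 1, fun W hW => ⟨X₀ + W + ⌈4 * (W + 1) / ε⌉₊, fun Y hY β => ?_⟩⟩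
  have hW1 : 1 ≤ W := by omega
  have hW0 : (0 : ℝ) < W := by exact_mod_cast hW1
  have hYW : W ≤ Y := by omega
  have hYc : 4 * ((W : ℝ) + 1) / ε ≤ Y := (Nat.le_ceil _).trans (by exact_mod_cast (by omega : ⌈4 * ((W : ℝ) + 1) / ε⌉₊ ≤ Y))
  obtain ⟨v, hv⟩ : ∃ v : ℤ → ℝ, v = fun m => ‖∑ l ∈ range W, ee ((l : ℝ) * β) * exI h (m + l)‖ := ⟨_, rfl⟩
  have hvW : ∀ m, v m ≤ W := by
    intro m
    rw [hv]
    refine (norm_sum_le _ _).trans ?_
    have h1 : ∀ l ∈ range W, ‖ee ((l : ℝ) * β) * exI h (m + l)‖ ≤ 1 := by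
      intro l _
      rw [norm_mul, norm_ee, one_mul]
      exact exI_le hb _
    refine (sum_le_sum h1).trans (le_of_eq ?_)
    rw [sum_const, card_range, nsmul_eq_mul, mul_one]
  have hv0 : ∀ m, 0 ≤ v m := fun m => by rw [hv]; positivity
  have hvz : ∀ m : ℤ, m + W ≤ 1 → v m = 0 := by
    intro m hm
    rw [hv]
    simp only
    rw [sum_eq_zero, norm_zero]
    intro l hl
    have := mem_range.1 hl
    rw [exI, if_neg (by omega), mul_zero]
  -- the positive positions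
  have key := h0 (Y + W) (by omega) W (by omega) (by omega) β
  obtain ⟨S, hS⟩ : ∃ S : ℕ → ℝ, S = fun z => ‖∑ n ∈ Icc 1 (3 * (Y + W)), if n ≤ z ∧ z < n + W then h n * ee ((n : ℝ) * β) else 0‖ :=
    ⟨_, rfl⟩
  have hS0 : ∀ z, 0 ≤ S z := fun z => by rw [hS]; positivity
  have key' : ∑ z ∈ range (3 * (Y + W) + 1), S z ≤ ε / 4 * W * ((Y + W : ℕ) : ℝ) := by
    rw [hS]; exact key
  have hvS : ∀ m ∈ Icc 1 Y, v (m : ℤ) = S (m + W - 1) := by
    intro m hm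
    have hm1 := mem_Icc.1 hm
    rw [hv, hS]
    simp only
    rw [← sum_filter]
    have h1 : (Icc 1 (3 * (Y + W))).filter (fun n => n ≤ m + W - 1 ∧ m + W - 1 < n + W) = Ico m (m + W) := by
      ext n
      simp only [mem_filter, mem_Icc, mem_Ico]
      omega
    rw [h1, sum_Ico_eq_sum_range, Nat.add_sub_cancel_left]
    have h2 : ∀ l ∈ range W, h (m + l) * ee (((m + l : ℕ) : ℝ) * β) = ee ((m : ℝ) * β) * (ee ((l : ℝ) * β) * exI h ((m : ℤ) + l)) := by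
      intro l _
      rw [exI, if_pos (by omega)]
      have h3 : ((m : ℤ) + (l : ℤ)).toNat = m + l := by omega
      rw [h3]
      push_cast
      rw [add_mul, ee_add]
      ring
    rw [sum_congr rfl h2, ← mul_sum, norm_mul, norm_ee, one_mul]
  have hpos : ∑ m ∈ Icc 1 Y, v (m : ℤ) ≤ ε / 4 * W * ((Y + W : ℕ) : ℝ) := by
    refine le_trans ?_ key'
    rw [sum_congr rfl hvS]
    have hinj : Set.InjOn (fun m => m + W - 1) ((Icc 1 Y : Finset ℕ) : Set ℕ) := by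
      intro x hx y hy hxy
      have := mem_Icc.1 (mem_coe.1 hx)
      have := mem_Icc.1 (mem_coe.1 hy)
      have h3 : x + W - 1 = y + W - 1 := hxy
      omega
    rw [← sum_image (f := S) (g := fun m => m + W - 1) hinj]
    refine sum_le_sum_of_subset_of_nonneg ?_ fun _ _ _ => hS0 _
    intro z hz
    obtain ⟨m, hm, rfl⟩ := mem_image.1 hz
    have := mem_Icc.1 hm
    exact mem_range.2 (by omega)
  -- the other positions
  have hneg : ∑ m ∈ Icc (-(Y : ℤ)) 0, v m ≤ (W : ℝ) * W := by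
    have h1 : ∑ m ∈ Icc (-(Y : ℤ)) 0, v m ≤ ∑ m ∈ Icc (1 - (W : ℤ)) 0, v m := by
      have h2 : Icc (1 - (W : ℤ)) 0 ⊆ Icc (-(Y : ℤ)) 0 := by
        intro m hm
        rw [mem_Icc] at hm ⊢
        omega
      rw [← sum_sdiff h2]
      have h3 : ∑ m ∈ Icc (-(Y : ℤ)) 0 \ Icc (1 - (W : ℤ)) 0, v m = 0 := by
        refine sum_eq_zero fun m hm => ?_
        rw [mem_sdiff, mem_Icc, mem_Icc] at hm
        exact hvz m (by omega)
      rw [h3, zero_add]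
    refine h1.trans ((sum_le_sum fun m _ => hvW m).trans (le_of_eq ?_))
    rw [sum_const, nsmul_eq_mul, Int.card_Icc]
    have h4 : (0 + 1 - (1 - (W : ℤ))).toNat = W := by omega
    rw [h4]
  have hsplit : ∑ m ∈ Icc (-(Y : ℤ)) Y, v m = ∑ m ∈ Icc (-(Y : ℤ)) 0, v m + ∑ m ∈ Icc 1 Y, v (m : ℤ) := by
    have h1 : Icc (-(Y : ℤ)) Y = Icc (-(Y : ℤ)) 0 ∪ (Icc 1 Y).map ⟨fun n : ℕ => (n : ℤ), Nat.cast_injective⟩ := by
      ext m
      simp only [mem_union, mem_Icc, mem_map, Function.Embedding.coeFn_mk]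
      constructor
      · intro hm
        rcases le_or_gt m 0 with h | h
        · exact Or.inl ⟨hm.1, h⟩
        · exact Or.inr ⟨m.toNat, by omega, by omega⟩
      · rintro (hm | ⟨n, hn, rfl⟩) <;> omega
    rw [h1, sum_union, sum_map]
    · rfl
    · rw [disjoint_left]
      intro m hm1 hm2
      obtain ⟨n, hn, rfl⟩ := mem_map.1 hm2
      rw [mem_Icc] at hn hm1
      simp only [Function.Embedding.coeFn_mk] at hm1
      omega
  have hfin : ∑ m ∈ Icc (-(Y : ℤ)) Y, v m ≤ ε * W * Y := by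
    rw [hsplit]
    have h1 : 4 * ((W : ℝ) + 1) ≤ Y * ε := by rwa [div_le_iff₀ hε] at hYc
    have h2 : ((Y + W : ℕ) : ℝ) ≤ 2 * Y := by
      have : ((Y + W : ℕ) : ℝ) ≤ ((2 * Y : ℕ) : ℝ) := by exact_mod_cast (by omega : Y + W ≤ 2 * Y)
      push_cast at this ⊢
      linarith
    have h3 : ε / 4 * W * ((Y + W : ℕ) : ℝ) ≤ ε / 4 * W * (2 * Y) := mul_le_mul_of_nonneg_left h2 (by positivity)
    have h4 : (W : ℝ) * (4 * ((W : ℝ) + 1)) ≤ W * (Y * ε) := mul_le_mul_of_nonneg_left h1 hW0.le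
    nlinarith
  rw [hv] at hfin
  exact hfin

lemma base_pos {h : ℕ → ℂ} (hb : ∀ n, ‖h n‖ ≤ 1) (hE : ExpoSmall h) {c : ℕ} (hc : 1 ≤ c) {ε : ℝ} (hε : 0 < ε) :
    ∃ K₀ : ℕ, ∀ K : ℕ, K₀ ≤ K → ∃ Y₀ : ℕ, ∀ Y : ℕ, Y₀ ≤ Y → ∀ β : ℝ,
      ∑ m ∈ Icc (-(Y : ℤ)) Y, ‖∑ k ∈ range K, ee ((k : ℝ) * β) * exI h (m + c * k)‖ ≤ ε * K * Y := by
  have hc0 : (0 : ℝ) < c := by exact_mod_cast hc
  obtain ⟨W₀, h0⟩ := full_sum hb hE (ε := ε / c) (by positivity)
  refine ⟨W₀, fun K hK => ?_⟩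
  have hWK : W₀ ≤ c * K := hK.trans (Nat.le_mul_of_pos_left _ (by omega))
  obtain ⟨Y₀, h1⟩ := h0 (c * K) hWK
  refine ⟨Y₀, fun Y hY β => ?_⟩
  have h2 : ∀ m ∈ Icc (-(Y : ℤ)) Y, ‖∑ k ∈ range K, ee ((k : ℝ) * β) * exI h (m + c * k)‖ ≤
      1 / c * ∑ b ∈ range c, ‖∑ l ∈ range (c * K), ee ((l : ℝ) * ((β + b) / c)) * exI h (m + l)‖ := by
    intro m _
    have h3 := prog_eq hc K (fun l => exI h (m + l)) β
    have h4 : ‖(c : ℂ) * ∑ k ∈ range K, ee ((k : ℝ) * β) * exI h (m + c * k)‖ =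
        c * ‖∑ k ∈ range K, ee ((k : ℝ) * β) * exI h (m + c * k)‖ := by
      rw [norm_mul, Complex.norm_natCast]
    have h5 : (c : ℂ) * ∑ k ∈ range K, ee ((k : ℝ) * β) * exI h (m + c * k) =
        (c : ℂ) * ∑ k ∈ range K, ee ((k : ℝ) * β) * exI h (m + ((c * k : ℕ) : ℤ)) := by
      push_cast
      rfl
    rw [h5, h3] at h4
    have h6 := norm_sum_le (range c) (fun b => ∑ l ∈ range (c * K), ee ((l : ℝ) * ((β + b) / c)) * exI h (m + l))
    rw [h4] at h6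
    rw [one_div, inv_mul_eq_div, le_div_iff₀ hc0]
    linarith
  refine (sum_le_sum h2).trans ?_
  rw [← mul_sum, sum_comm]
  have h7 : ∀ b ∈ range c, ∑ m ∈ Icc (-(Y : ℤ)) Y, ‖∑ l ∈ range (c * K), ee ((l : ℝ) * ((β + b) / c)) * exI h (m + l)‖ ≤
      ε / c * ((c * K : ℕ) : ℝ) * Y := fun b _ => h1 Y hY ((β + b) / c)
  refine (mul_le_mul_of_nonneg_left (sum_le_sum h7) (by positivity)).trans (le_of_eq ?_)
  rw [sum_const, card_range, nsmul_eq_mul]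
  push_cast
  field_simp

/-- the reversal of a progression -/
lemma reverse (F : ℤ → ℂ) (c : ℤ) (K : ℕ) (β : ℝ) (m : ℤ) :
    ‖∑ k ∈ range K, ee ((k : ℝ) * β) * F (m - c * k)‖ =
      ‖∑ k ∈ range K, ee ((k : ℝ) * (-β)) * F (m - c * ((K : ℤ) - 1) + c * k)‖ := by
  rw [← sum_range_reflect]
  have h1 : ∀ k ∈ range K, ee (((K - 1 - k : ℕ) : ℝ) * β) * F (m - c * ((K - 1 - k : ℕ) : ℤ)) =
      ee (((K : ℝ) - 1) * β) * (ee ((k : ℝ) * (-β)) * F (m - c * ((K : ℤ) - 1) + c * k)) := by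
    intro k hk
    have hk1 := mem_range.1 hk
    have e1 : ((K - 1 - k : ℕ) : ℤ) = (K : ℤ) - 1 - k := by omega
    have e2 : ((K - 1 - k : ℕ) : ℝ) = (K : ℝ) - 1 - k := by
      have : ((K - 1 - k : ℕ) : ℝ) = (((K - 1 - k : ℕ) : ℤ) : ℝ) := by push_cast; rfl
      rw [this, e1]
      push_cast
      ring
    rw [e1, e2, ← mul_assoc, ← ee_add]
    congr 2 <;> ring
  rw [sum_congr rfl h1, ← mul_sum, norm_mul, norm_ee, one_mul]

/-- `h` at the positive integers -/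
lemma base_exI {h : ℕ → ℂ} (hb : ∀ n, ‖h n‖ ≤ 1) (hE : ExpoSmall h) : Base (exI h) := by
  intro c hc ε hε
  rcases lt_or_gt_of_ne hc with h1 | h1
  · -- negative `c`
    obtain ⟨c', rfl⟩ : ∃ c' : ℕ, c = -(c' : ℤ) := ⟨c.natAbs, by omega⟩
    have hc' : 1 ≤ c' := by omega
    obtain ⟨K₀, h2⟩ := base_pos hb hE hc' (ε := ε / 2) (by positivity)
    refine ⟨K₀ + 1, fun K hK => ?_⟩
    obtain ⟨Y₀, h3⟩ := h2 K (by omega)
    refine ⟨Y₀ + c' * K, fun Y hY β => ?_⟩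
    have h4 := h3 (Y + c' * K) (by omega) (-β)
    have h5 : ∀ m : ℤ, ‖∑ k ∈ range K, ee ((k : ℝ) * β) * exI h (m + -(c' : ℤ) * k)‖ =
        ‖∑ k ∈ range K, ee ((k : ℝ) * (-β)) * exI h (m - c' * ((K : ℤ) - 1) + c' * k)‖ := by
      intro m
      have h6 := reverse (exI h) c' K β m
      rw [← h6]
      congr 1
      refine sum_congr rfl fun k _ => ?_
      congr 2
      ring
    simp only [h5]
    have h7 : ∑ m ∈ Icc (-(Y : ℤ)) Y, ‖∑ k ∈ range K, ee ((k : ℝ) * (-β)) * exI h (m - c' * ((K : ℤ) - 1) + c' * k)‖ ≤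
        ∑ m ∈ Icc (-((Y + c' * K : ℕ) : ℤ)) ((Y + c' * K : ℕ) : ℤ), ‖∑ k ∈ range K, ee ((k : ℝ) * (-β)) * exI h (m + c' * k)‖ := by
      have hinj : Set.InjOn (fun m : ℤ => m - c' * ((K : ℤ) - 1)) ((Icc (-(Y : ℤ)) Y : Finset ℤ) : Set ℤ) := by
        intro x _ y _ hxy
        have h3 : x - c' * ((K : ℤ) - 1) = y - c' * ((K : ℤ) - 1) := hxy
        linarith
      rw [← sum_image (f := fun m => ‖∑ k ∈ range K, ee ((k : ℝ) * (-β)) * exI h (m + c' * k)‖)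
        (g := fun m : ℤ => m - c' * ((K : ℤ) - 1)) hinj]
      refine sum_le_sum_of_subset_of_nonneg ?_ fun _ _ _ => norm_nonneg _
      intro z hz
      obtain ⟨m, hm, rfl⟩ := mem_image.1 hz
      rw [mem_Icc] at hm ⊢
      have e1 : (0 : ℤ) ≤ c' * K := by positivity
      have e2 : (1 : ℤ) ≤ c' := by exact_mod_cast hc'
      have e3 : (c' : ℤ) * ((K : ℤ) - 1) = c' * K - c' := by ring
      push_cast
      have e4 : (c' : ℤ) ≤ c' * K := by
        have : (1 : ℤ) ≤ K := by omega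
        nlinarith
      constructor <;> linarith
    refine (h7.trans h4).trans ?_
    have h8 : ((Y + c' * K : ℕ) : ℝ) ≤ 2 * Y := by
      have : ((Y + c' * K : ℕ) : ℝ) ≤ ((2 * Y : ℕ) : ℝ) := by exact_mod_cast (by omega : Y + c' * K ≤ 2 * Y)
      push_cast at this ⊢
      linarith
    have h9 : ε / 2 * K * ((Y + c' * K : ℕ) : ℝ) ≤ ε / 2 * K * (2 * Y) := mul_le_mul_of_nonneg_left h8 (by positivity)
    linarith
  · obtain ⟨c', rfl⟩ : ∃ c' : ℕ, c = (c' : ℤ) := ⟨c.natAbs, by omega⟩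
    exact base_pos hb hE (by omega) hε

/-- the reflection -/
lemma Base.neg {F : ℤ → ℂ} (hF : Base F) : Base (fun m => F (-m)) := by
  intro c hc ε hε
  obtain ⟨K₀, h1⟩ := hF (-c) (neg_ne_zero.2 hc) ε hε
  refine ⟨K₀, fun K hK => ?_⟩
  obtain ⟨Y₀, h2⟩ := h1 K hK
  refine ⟨Y₀, fun Y hY β => ?_⟩
  refine le_trans (le_of_eq ?_) (h2 Y hY β)
  refine sum_nbij (fun m => -m) ?_ ?_ ?_ ?_
  · intro m hm
    rw [mem_Icc] at hm ⊢
    omega
  · intro x _ y _ hxy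
    exact neg_injective hxy
  · intro y hy
    have hy1 := mem_Icc.1 (mem_coe.1 hy)
    exact ⟨-y, mem_coe.2 (mem_Icc.2 (by omega)), neg_neg y⟩
  · intro m _
    congr 1
    refine sum_congr rfl fun k _ => ?_
    simp only
    congr 2
    ring

lemma Base.add {F G : ℤ → ℂ} (hF : Base F) (hG : Base G) : Base (fun m => F m + G m) := by
  intro c hc ε hε
  obtain ⟨K₀, h1⟩ := hF c hc (ε / 2) (by positivity)
  obtain ⟨K₁, h2⟩ := hG c hc (ε / 2) (by positivity)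
  refine ⟨max K₀ K₁, fun K hK => ?_⟩
  obtain ⟨Y₀, h3⟩ := h1 K ((le_max_left _ _).trans hK)
  obtain ⟨Y₁, h4⟩ := h2 K ((le_max_right _ _).trans hK)
  refine ⟨max Y₀ Y₁, fun Y hY β => ?_⟩
  have h5 := h3 Y ((le_max_left _ _).trans hY) β
  have h6 := h4 Y ((le_max_right _ _).trans hY) β
  have h7 : ∀ m ∈ Icc (-(Y : ℤ)) Y, ‖∑ k ∈ range K, ee ((k : ℝ) * β) * (F (m + c * k) + G (m + c * k))‖ ≤
      ‖∑ k ∈ range K, ee ((k : ℝ) * β) * F (m + c * k)‖ + ‖∑ k ∈ range K, ee ((k : ℝ) * β) * G (m + c * k)‖ := by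
    intro m _
    simp only [mul_add, sum_add_distrib]
    exact norm_add_le _ _
  refine (sum_le_sum h7).trans ?_
  rw [sum_add_distrib]
  linarith

end Pool.Agent.TH893.PC
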