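import Mathlib

/-!
# Van der Corput's differencing for polynomial orbits in moving windows
-/

set_option autoImplicit false

namespace Pool.Agent.TH893.PC

open Finset

lemma shift_one {E : Type*} [AddCommGroup E] (Φ : ℤ → E) (H : ℕ) (s : ℤ) :
    ∑ i ∈ Icc 1 H, Φ (s + 1 + (i : ℤ)) = ∑ i ∈ Icc 1 H, Φ (s + (i : ℤ)) + Φ (s + H + 1) - Φ (s + 1) := by
  induction H with
  | zero => simp
  | succ H ih =>
    rw [sum_Icc_succ_top (by omega), sum_Icc_succ_top (by omega), ih]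
    push_cast
    have e1 : s + 1 + ((H : ℤ) + 1) = s + (H + 1) + 1 := by ring
    have e2 : s + (H : ℤ) + 1 = s + (H + 1) := by ring
    rw [e1, e2]
    abel

lemma shift_nat {E : Type*} [SeminormedAddCommGroup E] (Φ : ℤ → E) {b : ℝ} (hΦ : ∀ a, ‖Φ a‖ ≤ b) (H : ℕ) (s : ℤ) (n : ℕ) :
    ‖∑ i ∈ Icc 1 H, Φ (s + n + (i : ℤ)) - ∑ i ∈ Icc 1 H, Φ (s + (i : ℤ))‖ ≤ 2 * b * n := by
  induction n with
  | zero => simp
  | succ n ih =>
    have h1 := shift_one Φ H (s + n)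
    have e1 : ∀ i : ℕ, s + ((n + 1 : ℕ) : ℤ) + (i : ℤ) = s + n + 1 + i := by intro i; push_cast; ring
    simp only [e1]
    rw [h1]
    have h2 : ∑ i ∈ Icc 1 H, Φ (s + n + (i : ℤ)) + Φ (s + n + H + 1) - Φ (s + n + 1) - ∑ i ∈ Icc 1 H, Φ (s + (i : ℤ)) =
        (∑ i ∈ Icc 1 H, Φ (s + n + (i : ℤ)) - ∑ i ∈ Icc 1 H, Φ (s + (i : ℤ))) + (Φ (s + n + H + 1) - Φ (s + n + 1)) := by abel
    rw [h2]
    have h3 := norm_sub_le (Φ (s + n + H + 1)) (Φ (s + n + 1))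
    have h4 := hΦ (s + n + H + 1)
    have h5 := hΦ (s + n + 1)
    refine (norm_add_le _ _).trans ?_
    push_cast
    linarith

/-- shifting a sum over a window -/
lemma shift_win {E : Type*} [SeminormedAddCommGroup E] (Φ : ℤ → E) {b : ℝ} (hΦ : ∀ a, ‖Φ a‖ ≤ b) (H : ℕ) (s t : ℤ) :
    ‖∑ i ∈ Icc 1 H, Φ (s + (i : ℤ)) - ∑ i ∈ Icc 1 H, Φ (t + (i : ℤ))‖ ≤ 2 * b * ((|s - t| : ℤ) : ℝ) := by
  rcases le_total t s with h | h
  · obtain ⟨n, hn⟩ := Int.eq_ofNat_of_zero_le (sub_nonneg.2 h)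
    have e : s = t + n := by linarith
    have h1 := shift_nat Φ hΦ H t n
    rw [e, add_sub_cancel_left, abs_of_nonneg (by positivity)]
    exact_mod_cast h1
  · obtain ⟨n, hn⟩ := Int.eq_ofNat_of_zero_le (sub_nonneg.2 h)
    have e : t = s + n := by linarith
    have h1 := shift_nat Φ hΦ H s n
    rw [e, sub_add_cancel_left, abs_neg, abs_of_nonneg (by positivity), norm_sub_rev]
    exact_mod_cast h1

/-- the short sums -/
noncomputable def V (F : ℤ → ℂ) (K : ℕ) (Q : ℤ → ℤ) (φ : ℤ → ℂ) (x m : ℤ) : ℂ :=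
  ∑ k ∈ range K, φ (x + k) * F (m + (Q (x + k) - Q x))

/-- the mean square of the short sums -/
noncomputable def J (F : ℤ → ℂ) (f : ℤ → ℤ) (M : ℤ) (N H K : ℕ) (Q : ℤ → ℤ) (φ : ℤ → ℂ) : ℝ :=
  ∑ x ∈ Icc 1 N, ∑ i ∈ Icc 1 H, ‖V F K Q φ (x : ℤ) (f x + M + (i : ℤ))‖ ^ 2

/-- the short sums are small in the mean square -/
def Small (F : ℤ → ℂ) (f : ℤ → ℤ) (d B : ℕ) (Q : ℤ → ℤ) (Φ : (ℤ → ℂ) → Prop) : Prop :=
  ∀ ε : ℝ, 0 < ε → ∃ K₀ : ℕ, ∀ K : ℕ, K₀ ≤ K → ∃ C N₀ : ℕ, ∀ N : ℕ, N₀ ≤ N → ∀ H : ℕ, C * N ^ (d - 1) ≤ H → H ≤ B * N ^ d →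
    ∀ M : ℤ, |M| ≤ B * N ^ d → ∀ φ, Φ φ → J F f M N H K Q φ ≤ ε * K ^ 2 * N * H

/-- bounded growth of the increments -/
def Gr (d : ℕ) (Q : ℤ → ℤ) : Prop := ∀ K : ℕ, ∃ C : ℕ, ∀ N : ℕ, 1 ≤ N → ∀ x : ℤ, 0 ≤ x → x ≤ N → ∀ k : ℕ, k ≤ K →
  |Q (x + k) - Q x| ≤ C * (N : ℤ) ^ (d - 1)

lemma Gr.diff {d : ℕ} {Q : ℤ → ℤ} (hQ : Gr d Q) (k k' : ℕ) : Gr d (fun x => Q (x + k') - Q (x + k)) := by
  intro K
  obtain ⟨C, hC⟩ := hQ K
  refine ⟨C * (1 + k') ^ (d - 1) + C * (1 + k) ^ (d - 1), fun N hN x hx0 hx1 l hl => ?_⟩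
  have key : ∀ j : ℕ, |Q (x + j + l) - Q (x + j)| ≤ ((C * (1 + j) ^ (d - 1) : ℕ) : ℤ) * (N : ℤ) ^ (d - 1) := by
    intro j
    have h1 := hC ((1 + j) * N) (Nat.mul_pos (by omega) (by omega)) (x + j) (by omega) (by
      push_cast
      have : (1 : ℤ) ≤ N := by exact_mod_cast hN
      nlinarith [(by positivity : (0:ℤ) ≤ (j : ℤ))]) l hl
    refine h1.trans (le_of_eq ?_)
    push_cast
    rw [mul_pow]
    ring
  have h1 := key k'
  have h2 := key k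
  have e : Q (x + l + k') - Q (x + l + k) - (Q (x + k') - Q (x + k)) =
      (Q (x + k' + l) - Q (x + k')) - (Q (x + k + l) - Q (x + k)) := by
    rw [show x + (l : ℤ) + k' = x + k' + l by ring, show x + (l : ℤ) + k = x + k + l by ring]
    ring
  simp only
  rw [e]
  refine (abs_sub _ _).trans ?_
  push_cast at h1 h2 ⊢
  linarith

lemma Gr.bound {d : ℕ} {Q : ℤ → ℤ} (hQ : Gr d Q) (k k' : ℕ) : ∃ C : ℕ, ∀ N : ℕ, 1 ≤ N → ∀ x : ℤ, 0 ≤ x → x ≤ N →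
    |Q (x + k') - Q (x + k)| ≤ C * (N : ℤ) ^ (d - 1) := by
  obtain ⟨C, hC⟩ := hQ (max k k')
  refine ⟨2 * C, fun N hN x hx0 hx1 => ?_⟩
  have h1 := hC N hN x hx0 hx1 k (le_max_left _ _)
  have h2 := hC N hN x hx0 hx1 k' (le_max_right _ _)
  have e : Q (x + k') - Q (x + k) = (Q (x + k') - Q x) - (Q (x + k) - Q x) := by ring
  rw [e]
  refine (abs_sub _ _).trans ?_
  push_cast
  linarith

variable {F : ℤ → ℂ} {f : ℤ → ℤ} {d B : ℕ}

/-- the off-diagonal terms -/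
lemma off (hF : ∀ a, ‖F a‖ ≤ 1) (hf : Gr d f) {R : ℤ → ℤ} {Φ : (ℤ → ℂ) → Prop} (hR : Small F f d B R Φ)
    (hRb : ∃ C : ℕ, ∀ N : ℕ, 1 ≤ N → ∀ x : ℤ, 0 ≤ x → x ≤ N → |R x| ≤ C * (N : ℤ) ^ (d - 1))
    (hΦ : ∀ φ, Φ φ → ∀ x, ‖φ x‖ ≤ 1) {η : ℝ} (hη : 0 < η) :
    ∃ C N₀ : ℕ, ∀ N : ℕ, N₀ ≤ N → ∀ H : ℕ, C * N ^ (d - 1) ≤ H → H ≤ B * N ^ d →
      ∀ M : ℤ, |M| ≤ B * N ^ d → ∀ φ, Φ φ →
      ‖∑ x ∈ Icc 1 N, φ (x : ℤ) * ∑ i ∈ Icc 1 H, (starRingEnd ℂ) (F (f x + M + (i : ℤ))) * F (f x + M + (i : ℤ) + R x)‖ ≤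
        η * N * H := by
  obtain ⟨K₀, h0⟩ := hR ((η / 4) ^ 2) (by positivity)
  obtain ⟨K, hK⟩ : ∃ K, K = K₀ + 1 := ⟨_, rfl⟩
  have hK1 : 1 ≤ K := by omega
  have hK0 : (0 : ℝ) < K := by exact_mod_cast hK1
  obtain ⟨C₁, N₁, h1⟩ := h0 K (by omega)
  obtain ⟨C₂, h2⟩ := hRb
  obtain ⟨C₃, h3⟩ := hf K
  refine ⟨C₁ + ⌈8 * (C₂ : ℝ) / η⌉₊ + ⌈8 * (C₃ : ℝ) / η⌉₊, N₁ + ⌈8 * (K : ℝ) / η⌉₊ + 1, fun N hN H hH hHB M hM φ hφ => ?_⟩
  have hN1 : 1 ≤ N := by omega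
  have hNK : 8 * (K : ℝ) / η ≤ N := (Nat.le_ceil _).trans (by exact_mod_cast (by omega : ⌈8 * (K : ℝ) / η⌉₊ ≤ N))
  obtain ⟨D, hD⟩ : ∃ D : ℝ, D = (N : ℝ) ^ (d - 1) := ⟨_, rfl⟩
  have hD0 : 0 ≤ D := by rw [hD]; positivity
  have hH' : (C₁ + ⌈8 * (C₂ : ℝ) / η⌉₊ + ⌈8 * (C₃ : ℝ) / η⌉₊ : ℝ) * D ≤ H := by
    rw [hD]; exact_mod_cast hH
  have hHC : C₁ * N ^ (d - 1) ≤ H := by
    refine le_trans (Nat.mul_le_mul_right _ ?_) hH
    omega
  have hHC2 : 8 * (C₂ : ℝ) * D ≤ η * H := by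
    have e1 : 8 * (C₂ : ℝ) / η * D ≤ H := by
      have e2 : 8 * (C₂ : ℝ) / η * D ≤ ⌈8 * (C₂ : ℝ) / η⌉₊ * D := mul_le_mul_of_nonneg_right (Nat.le_ceil _) hD0
      have e3 : 0 ≤ (C₁ : ℝ) * D := by positivity
      have e4 : 0 ≤ (⌈8 * (C₃ : ℝ) / η⌉₊ : ℝ) * D := by positivity
      nlinarith
    rw [div_mul_eq_mul_div, div_le_iff₀ hη] at e1
    linarith
  have hHC3 : 8 * (C₃ : ℝ) * D ≤ η * H := by
    have e1 : 8 * (C₃ : ℝ) / η * D ≤ H := by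
      have e2 : 8 * (C₃ : ℝ) / η * D ≤ ⌈8 * (C₃ : ℝ) / η⌉₊ * D := mul_le_mul_of_nonneg_right (Nat.le_ceil _) hD0
      have e3 : 0 ≤ (C₁ : ℝ) * D := by positivity
      have e4 : 0 ≤ (⌈8 * (C₂ : ℝ) / η⌉₊ : ℝ) * D := by positivity
      nlinarith
    rw [div_mul_eq_mul_div, div_le_iff₀ hη] at e1
    linarith
  have hNK' : 8 * (K : ℝ) ≤ η * N := by
    rw [div_le_iff₀ hη] at hNK
    linarith
  have hφ1 := hΦ φ hφ
  have hJ := h1 N (by omega) H hHC hHB M hM φ hφ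
  have hH0 : (0 : ℝ) ≤ H := Nat.cast_nonneg _
  have hN0 : (0 : ℝ) < N := by exact_mod_cast hN1
  obtain ⟨T, hT⟩ : ∃ T : ℤ → ℂ, T = fun x => φ x * ∑ i ∈ Icc 1 H, (starRingEnd ℂ) (F (f x + M + (i : ℤ))) * F (f x + M + (i : ℤ) + R x) :=
    ⟨_, rfl⟩
  have hTH : ∀ x, ‖T x‖ ≤ H := by
    intro x
    rw [hT]
    simp only
    rw [norm_mul]
    have e1 : ‖∑ i ∈ Icc 1 H, (starRingEnd ℂ) (F (f x + M + (i : ℤ))) * F (f x + M + (i : ℤ) + R x)‖ ≤ H := by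
      refine (norm_sum_le _ _).trans ?_
      have e2 : ∀ i ∈ Icc 1 H, ‖(starRingEnd ℂ) (F (f x + M + (i : ℤ))) * F (f x + M + (i : ℤ) + R x)‖ ≤ 1 := by
        intro i _
        rw [norm_mul, RCLike.norm_conj]
        exact mul_le_one₀ (hF _) (norm_nonneg _) (hF _)
      refine (sum_le_sum e2).trans (le_of_eq ?_)
      rw [sum_const, Nat.card_Icc, nsmul_eq_mul, mul_one, Nat.add_sub_cancel]
    calc ‖φ x‖ * _ ≤ 1 * (H : ℝ) := mul_le_mul (hφ1 x) e1 (norm_nonneg _) zero_le_one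
      _ = H := one_mul _
  have hgoal : ‖∑ x ∈ Icc 1 N, T (x : ℤ)‖ ≤ η * N * H := by
    -- averaging over short blocks
    have a1 : ∀ l ∈ range K, ‖∑ x ∈ Icc 1 N, T ((l : ℤ) + (x : ℤ)) - ∑ x ∈ Icc 1 N, T (x : ℤ)‖ ≤ 2 * H * K := by
      intro l hl
      have e1 := shift_win T hTH N (l : ℤ) 0
      simp only [zero_add, sub_zero] at e1
      refine e1.trans ?_
      rw [abs_of_nonneg (by positivity)]
      have e2 : (((l : ℤ)) : ℝ) ≤ K := by exact_mod_cast (mem_range.1 hl).le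
      exact mul_le_mul_of_nonneg_left e2 (by positivity)
    have a2 : (K : ℝ) * ‖∑ x ∈ Icc 1 N, T (x : ℤ)‖ ≤ ‖∑ x ∈ Icc 1 N, ∑ l ∈ range K, T ((l : ℤ) + (x : ℤ))‖ + K * (2 * H * K) := by
      have e1 : (K : ℂ) * ∑ x ∈ Icc 1 N, T (x : ℤ) = ∑ x ∈ Icc 1 N, ∑ l ∈ range K, T ((l : ℤ) + (x : ℤ)) -
          ∑ l ∈ range K, (∑ x ∈ Icc 1 N, T ((l : ℤ) + (x : ℤ)) - ∑ x ∈ Icc 1 N, T (x : ℤ)) := by
        rw [sum_sub_distrib, sum_comm, sum_const, card_range, nsmul_eq_mul]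
        ring
      have e2 : (K : ℝ) * ‖∑ x ∈ Icc 1 N, T (x : ℤ)‖ = ‖(K : ℂ) * ∑ x ∈ Icc 1 N, T (x : ℤ)‖ := by
        rw [norm_mul, Complex.norm_natCast]
      rw [e2, e1]
      refine (norm_sub_le _ _).trans (add_le_add le_rfl ?_)
      refine (norm_sum_le _ _).trans ((sum_le_sum a1).trans (le_of_eq ?_))
      rw [sum_const, card_range, nsmul_eq_mul]
    -- one block
    have a3 : ∀ x ∈ Icc 1 N, ‖∑ l ∈ range K, T ((l : ℤ) + (x : ℤ))‖ ≤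
        ∑ i ∈ Icc 1 H, ‖V F K R φ (x : ℤ) (f x + M + (i : ℤ))‖ + K * (2 * (C₃ * D)) + 2 * K * (C₂ * D) := by
      intro x hx
      have hx1 := mem_Icc.1 hx
      have hxN : ((x : ℕ) : ℤ) ≤ N := by exact_mod_cast hx1.2
      have b1 : ∀ l ∈ range K, ‖T ((l : ℤ) + (x : ℤ)) - ∑ i ∈ Icc 1 H, φ (x + l) *
          ((starRingEnd ℂ) (F (f x + M + (i : ℤ))) * F (f x + M + (i : ℤ) + R (x + l)))‖ ≤ 2 * (C₃ * D) := by
        intro l hl
        have e1 := shift_win (fun m => φ (x + l) * ((starRingEnd ℂ) (F m) * F (m + R (x + l)))) (b := 1) (by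
          intro m
          rw [norm_mul, norm_mul, RCLike.norm_conj]
          exact mul_le_one₀ (hφ1 _) (by positivity) (mul_le_one₀ (hF _) (norm_nonneg _) (hF _))) H
          (f (x + l) + M) (f x + M)
        have e2 : T ((l : ℤ) + (x : ℤ)) = ∑ i ∈ Icc 1 H, φ (x + l) * ((starRingEnd ℂ) (F (f (x + l) + M + (i : ℤ))) *
            F (f (x + l) + M + (i : ℤ) + R (x + l))) := by
          rw [hT]
          simp only
          rw [add_comm (l : ℤ) (x : ℤ), mul_sum]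
        rw [e2]
        refine e1.trans ?_
        rw [mul_one]
        refine mul_le_mul_of_nonneg_left ?_ (by norm_num)
        have e3 := h3 N hN1 x (by positivity) hxN l (mem_range.1 hl).le
        have e4 : f (x + l) + M - (f x + M) = f (x + l) - f x := by ring
        rw [e4]
        have e5 : ((|f (x + l) - f x| : ℤ) : ℝ) ≤ ((C₃ * (N : ℤ) ^ (d - 1) : ℤ) : ℝ) := by exact_mod_cast e3
        refine e5.trans (le_of_eq ?_)
        rw [hD]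
        push_cast
        ring
      have b2 : ‖∑ l ∈ range K, T ((l : ℤ) + (x : ℤ))‖ ≤ ‖∑ l ∈ range K, ∑ i ∈ Icc 1 H, φ (x + l) *
          ((starRingEnd ℂ) (F (f x + M + (i : ℤ))) * F (f x + M + (i : ℤ) + R (x + l)))‖ + K * (2 * (C₃ * D)) := by
        have e1 : ∑ l ∈ range K, T ((l : ℤ) + (x : ℤ)) = ∑ l ∈ range K, ∑ i ∈ Icc 1 H, φ (x + l) *
          ((starRingEnd ℂ) (F (f x + M + (i : ℤ))) * F (f x + M + (i : ℤ) + R (x + l))) +
          ∑ l ∈ range K, (T ((l : ℤ) + (x : ℤ)) - ∑ i ∈ Icc 1 H, φ (x + l) *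
          ((starRingEnd ℂ) (F (f x + M + (i : ℤ))) * F (f x + M + (i : ℤ) + R (x + l)))) := by
          rw [sum_sub_distrib]; ring
        rw [e1]
        refine (norm_add_le _ _).trans (add_le_add le_rfl ?_)
        refine (norm_sum_le _ _).trans ((sum_le_sum b1).trans (le_of_eq ?_))
        rw [sum_const, card_range, nsmul_eq_mul]
      have b3 : ‖∑ l ∈ range K, ∑ i ∈ Icc 1 H, φ (x + l) *
          ((starRingEnd ℂ) (F (f x + M + (i : ℤ))) * F (f x + M + (i : ℤ) + R (x + l)))‖ ≤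
          ∑ i ∈ Icc 1 H, ‖∑ l ∈ range K, φ (x + l) * F (f x + M + (i : ℤ) + R (x + l))‖ := by
        rw [sum_comm]
        refine (norm_sum_le _ _).trans (sum_le_sum fun i _ => ?_)
        have e1 : ∑ l ∈ range K, φ (x + l) * ((starRingEnd ℂ) (F (f x + M + (i : ℤ))) * F (f x + M + (i : ℤ) + R (x + l))) =
            (starRingEnd ℂ) (F (f x + M + (i : ℤ))) * ∑ l ∈ range K, φ (x + l) * F (f x + M + (i : ℤ) + R (x + l)) := by
          rw [mul_sum]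
          refine sum_congr rfl fun l _ => by ring
        rw [e1, norm_mul, RCLike.norm_conj]
        exact mul_le_of_le_one_left (norm_nonneg _) (hF _)
      have b4 : ∑ i ∈ Icc 1 H, ‖∑ l ∈ range K, φ (x + l) * F (f x + M + (i : ℤ) + R (x + l))‖ ≤
          ∑ i ∈ Icc 1 H, ‖V F K R φ (x : ℤ) (f x + M + (i : ℤ))‖ + 2 * K * (C₂ * D) := by
        have e1 := shift_win (fun m : ℤ => ‖∑ l ∈ range K, φ (x + l) * F (m + R (x + l))‖) (b := K) (by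
          intro m
          rw [norm_norm]
          refine (norm_sum_le _ _).trans ?_
          have e2 : ∀ l ∈ range K, ‖φ (x + l) * F (m + R (x + l))‖ ≤ 1 := by
            intro l _
            rw [norm_mul]
            exact mul_le_one₀ (hφ1 _) (norm_nonneg _) (hF _)
          refine (sum_le_sum e2).trans (le_of_eq ?_)
          rw [sum_const, card_range, nsmul_eq_mul, mul_one]) H (f x + M) (f x + M - R x)
        have e3 : ∀ i ∈ Icc 1 H, ‖V F K R φ (x : ℤ) (f x + M + (i : ℤ))‖ =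
            ‖∑ l ∈ range K, φ (x + l) * F (f x + M - R x + (i : ℤ) + R (x + l))‖ := by
          intro i _
          unfold V
          congr 1
          refine sum_congr rfl fun l _ => ?_
          congr 2
          ring
        rw [sum_congr rfl e3]
        have e4 : f x + M - (f x + M - R x) = R x := by ring
        rw [e4, Real.norm_eq_abs] at e1
        have e5 := (le_abs_self _).trans e1
        have e6 := h2 N hN1 x (by positivity) hxN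
        have e7 : ((|R x| : ℤ) : ℝ) ≤ C₂ * D := by
          have : ((|R x| : ℤ) : ℝ) ≤ ((C₂ * (N : ℤ) ^ (d - 1) : ℤ) : ℝ) := by exact_mod_cast e6
          refine this.trans (le_of_eq ?_)
          rw [hD]
          push_cast
          ring
        have e8 : 2 * (K : ℝ) * ((|R x| : ℤ) : ℝ) ≤ 2 * K * (C₂ * D) := mul_le_mul_of_nonneg_left e7 (by positivity)
        linarith
      linarith
    -- Cauchy-Schwarz
    have a4 : ∑ x ∈ Icc 1 N, ∑ i ∈ Icc 1 H, ‖V F K R φ (x : ℤ) (f x + M + (i : ℤ))‖ ≤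
        J F f M N H K R φ / (2 * (η / 4) * K) + η / 4 * K * N * H / 2 := by
      have e1 : ∀ x i : ℕ, ‖V F K R φ (x : ℤ) (f x + M + (i : ℤ))‖ ≤
          ‖V F K R φ (x : ℤ) (f x + M + (i : ℤ))‖ ^ 2 / (2 * (η / 4) * K) + η / 4 * K / 2 := by
        intro x i
        set u := ‖V F K R φ (x : ℤ) (f x + M + (i : ℤ))‖
        have e2 : u ^ 2 / (2 * (η / 4) * K) + η / 4 * K / 2 - u = (u - η / 4 * K) ^ 2 / (2 * (η / 4) * K) := by
          field_simp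
          ring
        have e3 : 0 ≤ (u - η / 4 * K) ^ 2 / (2 * (η / 4) * K) := by positivity
        linarith
      refine (sum_le_sum fun x _ => sum_le_sum fun i _ => e1 x i).trans (le_of_eq ?_)
      unfold J
      simp only [sum_add_distrib, sum_const, Nat.card_Icc, Nat.add_sub_cancel, nsmul_eq_mul, ← sum_div]
      ring
    have a5 : J F f M N H K R φ / (2 * (η / 4) * K) ≤ η / 4 * K * N * H / 2 := by
      rw [div_le_iff₀ (by positivity)]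
      refine hJ.trans (le_of_eq ?_)
      ring
    have a6 : ‖∑ x ∈ Icc 1 N, ∑ l ∈ range K, T ((l : ℤ) + (x : ℤ))‖ ≤
        η / 4 * K * N * H + N * (K * (2 * (C₃ * D))) + N * (2 * K * (C₂ * D)) := by
      refine (norm_sum_le _ _).trans ((sum_le_sum a3).trans ?_)
      rw [sum_add_distrib, sum_add_distrib]
      simp only [sum_const, Nat.card_Icc, Nat.add_sub_cancel, nsmul_eq_mul]
      linarith
    have a7 : (K : ℝ) * ‖∑ x ∈ Icc 1 N, T (x : ℤ)‖ ≤ K * (η * N * H) := by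
      refine a2.trans ?_
      have c1 : (N : ℝ) * (K * (2 * (C₃ * D))) ≤ K * (η / 4 * N * H) := by
        have : (N : ℝ) * K * (8 * (C₃ : ℝ) * D) ≤ N * K * (η * H) := mul_le_mul_of_nonneg_left hHC3 (by positivity)
        nlinarith
      have c2 : (N : ℝ) * (2 * K * (C₂ * D)) ≤ K * (η / 4 * N * H) := by
        have : (N : ℝ) * K * (8 * (C₂ : ℝ) * D) ≤ N * K * (η * H) := mul_le_mul_of_nonneg_left hHC2 (by positivity)
        nlinarith
      have c3 : (K : ℝ) * (2 * H * K) ≤ K * (η / 4 * N * H) := by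
        have : (K : ℝ) * H * (8 * K) ≤ K * H * (η * N) := mul_le_mul_of_nonneg_left hNK' (by positivity)
        nlinarith
      have c4 : η / 4 * K * N * H = K * (η / 4 * N * H) := by ring
      have c5 : (K : ℝ) * (η * N * H) = K * (η / 4 * N * H) + K * (η / 4 * N * H) + K * (η / 4 * N * H) + K * (η / 4 * N * H) := by ring
      linarith
    exact le_of_mul_le_mul_left a7 hK0
  rw [hT] at hgoal
  exact hgoal

/-- one differencing step -/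
theorem step (hF : ∀ a, ‖F a‖ ≤ 1) (hf : Gr d f) {Q : ℤ → ℤ} (hQ : Gr d Q) {Φ Φ' : (ℤ → ℂ) → Prop}
    (hΦ : ∀ φ, Φ φ → ∀ x, ‖φ x‖ ≤ 1) (hΦ0 : ∀ φ, Φ' φ → ∀ x, ‖φ x‖ ≤ 1)
    (hΦ' : ∀ φ, Φ' φ → ∀ k k' : ℕ, Φ (fun x => φ (x + k') * (starRingEnd ℂ) (φ (x + k))))
    (hR : ∀ k k' : ℕ, k ≠ k' → Small F f d B (fun x => Q (x + k') - Q (x + k)) Φ) : Small F f d B Q Φ' := by
  intro ε hε
  refine ⟨⌈4 / ε⌉₊ + 1, fun K hK => ?_⟩
  have hK1 : 1 ≤ K := by omega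
  have hK0 : (0 : ℝ) < K := by exact_mod_cast hK1
  have hKε : 4 ≤ ε * K := by
    have h1 : 4 / ε ≤ K := (Nat.le_ceil _).trans (by exact_mod_cast (by omega : ⌈4 / ε⌉₊ ≤ K))
    rw [div_le_iff₀ hε] at h1
    linarith
  have hall : ∀ p : ℕ × ℕ, ∃ C N₀ : ℕ, p.1 ≠ p.2 → ∀ N : ℕ, N₀ ≤ N → ∀ H : ℕ, C * N ^ (d - 1) ≤ H → H ≤ B * N ^ d →
      ∀ M : ℤ, |M| ≤ B * N ^ d → ∀ φ, Φ φ →
      ‖∑ x ∈ Icc 1 N, φ (x : ℤ) * ∑ i ∈ Icc 1 H, (starRingEnd ℂ) (F (f x + M + (i : ℤ))) *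
        F (f x + M + (i : ℤ) + (Q (x + p.2) - Q (x + p.1)))‖ ≤ ε / 4 * N * H := by
    intro p
    by_cases hp : p.1 = p.2
    · exact ⟨0, 0, fun h => absurd hp h⟩
    · obtain ⟨C, N₀, h⟩ := off hF hf (hR p.1 p.2 hp) (hQ.bound p.1 p.2) hΦ (η := ε / 4) (by positivity)
      exact ⟨C, N₀, fun _ => h⟩
  choose C N₀ hCN using hall
  obtain ⟨C₁, h1⟩ := hQ K
  refine ⟨∑ p ∈ range K ×ˢ range K, C p + ⌈8 * (C₁ : ℝ) / ε⌉₊, ∑ p ∈ range K ×ˢ range K, N₀ p + 1, fun N hN H hH hHB M hM φ hφ => ?_⟩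
  have hN1 : 1 ≤ N := by omega
  have hφ1 := hΦ0 φ hφ
  have hH0 : (0 : ℝ) ≤ H := Nat.cast_nonneg _
  have hN0 : (0 : ℝ) < N := by exact_mod_cast hN1
  obtain ⟨D, hD⟩ : ∃ D : ℝ, D = (N : ℝ) ^ (d - 1) := ⟨_, rfl⟩
  have hD0 : 0 ≤ D := by rw [hD]; positivity
  have hHC1 : 8 * (C₁ : ℝ) * D ≤ ε * H := by
    have e0 : (⌈8 * (C₁ : ℝ) / ε⌉₊ : ℝ) * D ≤ H := by
      rw [hD]
      have : ⌈8 * (C₁ : ℝ) / ε⌉₊ * N ^ (d - 1) ≤ H := le_trans (Nat.mul_le_mul_right _ (by omega)) hH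
      exact_mod_cast this
    have e1 : 8 * (C₁ : ℝ) / ε * D ≤ H := (mul_le_mul_of_nonneg_right (Nat.le_ceil _) hD0).trans e0
    rw [div_mul_eq_mul_div, div_le_iff₀ hε] at e1
    linarith
  -- expansion of the square
  have hexp : ((J F f M N H K Q φ : ℝ) : ℂ) = ∑ p ∈ range K ×ˢ range K, ∑ x ∈ Icc 1 N,
      (φ (x + p.2) * (starRingEnd ℂ) (φ (x + p.1))) * ∑ i ∈ Icc 1 H,
        (starRingEnd ℂ) (F (f x + M + (i : ℤ) + (Q (x + p.1) - Q x))) * F (f x + M + (i : ℤ) + (Q (x + p.2) - Q x)) := by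
    have e1 : ∀ x i : ℕ, ((‖V F K Q φ (x : ℤ) (f x + M + (i : ℤ))‖ ^ 2 : ℝ) : ℂ) = ∑ p ∈ range K ×ˢ range K,
        (φ (x + p.2) * (starRingEnd ℂ) (φ (x + p.1))) *
        ((starRingEnd ℂ) (F (f x + M + (i : ℤ) + (Q (x + p.1) - Q x))) * F (f x + M + (i : ℤ) + (Q (x + p.2) - Q x))) := by
      intro x i
      have e2 : ((‖V F K Q φ (x : ℤ) (f x + M + (i : ℤ))‖ ^ 2 : ℝ) : ℂ) =
          (starRingEnd ℂ) (V F K Q φ (x : ℤ) (f x + M + (i : ℤ))) * V F K Q φ (x : ℤ) (f x + M + (i : ℤ)) := by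
        rw [mul_comm, Complex.mul_conj, Complex.normSq_eq_norm_sq]
      rw [e2]
      unfold V
      rw [map_sum, sum_mul_sum, sum_product]
      refine sum_congr rfl fun k _ => sum_congr rfl fun k' _ => ?_
      rw [map_mul]
      ring
    unfold J
    rw [Complex.ofReal_sum]
    simp only [Complex.ofReal_sum, e1]
    rw [sum_congr rfl fun x _ => sum_comm, sum_comm]
    refine sum_congr rfl fun p _ => sum_congr rfl fun x _ => ?_
    rw [mul_sum]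
  -- each pair
  have hpair : ∀ p ∈ range K ×ˢ range K, ‖∑ x ∈ Icc 1 N,
      (φ (x + p.2) * (starRingEnd ℂ) (φ (x + p.1))) * ∑ i ∈ Icc 1 H,
        (starRingEnd ℂ) (F (f x + M + (i : ℤ) + (Q (x + p.1) - Q x))) * F (f x + M + (i : ℤ) + (Q (x + p.2) - Q x))‖ ≤
      ‖∑ x ∈ Icc 1 N, (φ (x + p.2) * (starRingEnd ℂ) (φ (x + p.1))) * ∑ i ∈ Icc 1 H,
        (starRingEnd ℂ) (F (f x + M + (i : ℤ))) * F (f x + M + (i : ℤ) + (Q (x + p.2) - Q (x + p.1)))‖ + N * (2 * (C₁ * D)) := by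
    intro p hp
    have hp1 := mem_range.1 (mem_product.1 hp).1
    have e1 : ∀ x ∈ Icc 1 N, ‖(φ (x + p.2) * (starRingEnd ℂ) (φ (x + p.1))) * ∑ i ∈ Icc 1 H,
        (starRingEnd ℂ) (F (f x + M + (i : ℤ) + (Q (x + p.1) - Q x))) * F (f x + M + (i : ℤ) + (Q (x + p.2) - Q x)) -
        (φ (x + p.2) * (starRingEnd ℂ) (φ (x + p.1))) * ∑ i ∈ Icc 1 H,
        (starRingEnd ℂ) (F (f x + M + (i : ℤ))) * F (f x + M + (i : ℤ) + (Q (x + p.2) - Q (x + p.1)))‖ ≤ 2 * (C₁ * D) := by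
      intro x hx
      have hx1 := mem_Icc.1 hx
      have hxN : ((x : ℕ) : ℤ) ≤ N := by exact_mod_cast hx1.2
      rw [← mul_sub, norm_mul]
      have e2 := shift_win (fun m => (starRingEnd ℂ) (F m) * F (m + (Q (x + p.2) - Q (x + p.1)))) (b := 1) (by
        intro m
        rw [norm_mul, RCLike.norm_conj]
        exact mul_le_one₀ (hF _) (norm_nonneg _) (hF _)) H (f x + M + (Q (x + p.1) - Q x)) (f x + M)
      have e3 : ‖φ (x + p.2) * (starRingEnd ℂ) (φ (x + p.1))‖ ≤ 1 := by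
        rw [norm_mul, RCLike.norm_conj]
        exact mul_le_one₀ (hφ1 _) (norm_nonneg _) (hφ1 _)
      have e4 : ∑ i ∈ Icc 1 H, (starRingEnd ℂ) (F (f x + M + (i : ℤ) + (Q (x + p.1) - Q x))) * F (f x + M + (i : ℤ) + (Q (x + p.2) - Q x)) =
          ∑ i ∈ Icc 1 H, (starRingEnd ℂ) (F (f x + M + (Q (x + p.1) - Q x) + (i : ℤ))) *
            F (f x + M + (Q (x + p.1) - Q x) + (i : ℤ) + (Q (x + p.2) - Q (x + p.1))) := by
        refine sum_congr rfl fun i _ => ?_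
        congr 2
        · congr 1; ring
        · ring
      rw [e4]
      refine (mul_le_of_le_one_left (norm_nonneg _) e3).trans (e2.trans ?_)
      rw [mul_one]
      refine mul_le_mul_of_nonneg_left ?_ (by norm_num)
      have e5 : f x + M + (Q (x + p.1) - Q x) - (f x + M) = Q (x + p.1) - Q x := by ring
      rw [e5]
      have e6 := h1 N hN1 x (by positivity) hxN p.1 hp1.le
      have e7 : ((|Q (x + p.1) - Q x| : ℤ) : ℝ) ≤ ((C₁ * (N : ℤ) ^ (d - 1) : ℤ) : ℝ) := by exact_mod_cast e6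
      refine e7.trans (le_of_eq ?_)
      rw [hD]
      push_cast
      ring
    have e2 := norm_sum_le_of_le (Icc 1 N) e1
    rw [sum_const, Nat.card_Icc, nsmul_eq_mul, Nat.add_sub_cancel, sum_sub_distrib] at e2
    have e3 := norm_sub_norm_le (∑ x ∈ Icc 1 N,
      (φ (x + p.2) * (starRingEnd ℂ) (φ (x + p.1))) * ∑ i ∈ Icc 1 H,
        (starRingEnd ℂ) (F (f x + M + (i : ℤ) + (Q (x + p.1) - Q x))) * F (f x + M + (i : ℤ) + (Q (x + p.2) - Q x)))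
      (∑ x ∈ Icc 1 N, (φ (x + p.2) * (starRingEnd ℂ) (φ (x + p.1))) * ∑ i ∈ Icc 1 H,
        (starRingEnd ℂ) (F (f x + M + (i : ℤ))) * F (f x + M + (i : ℤ) + (Q (x + p.2) - Q (x + p.1))))
    linarith
  have hdiag : ∀ p ∈ range K ×ˢ range K, ‖∑ x ∈ Icc 1 N, (φ (x + p.2) * (starRingEnd ℂ) (φ (x + p.1))) * ∑ i ∈ Icc 1 H,
        (starRingEnd ℂ) (F (f x + M + (i : ℤ))) * F (f x + M + (i : ℤ) + (Q (x + p.2) - Q (x + p.1)))‖ ≤
      (if p.1 = p.2 then (N : ℝ) * H else 0) + ε / 4 * N * H := by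
    intro p hp
    split_ifs with h
    · have e1 : ∀ x ∈ Icc 1 N, ‖(φ (x + p.2) * (starRingEnd ℂ) (φ (x + p.1))) * ∑ i ∈ Icc 1 H,
        (starRingEnd ℂ) (F (f x + M + (i : ℤ))) * F (f x + M + (i : ℤ) + (Q (x + p.2) - Q (x + p.1)))‖ ≤ H := by
        intro x _
        rw [norm_mul]
        have e3 : ‖φ (x + p.2) * (starRingEnd ℂ) (φ (x + p.1))‖ ≤ 1 := by
          rw [norm_mul, RCLike.norm_conj]
          exact mul_le_one₀ (hφ1 _) (norm_nonneg _) (hφ1 _)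
        refine (mul_le_of_le_one_left (norm_nonneg _) e3).trans ?_
        refine (norm_sum_le _ _).trans ?_
        have e2 : ∀ i ∈ Icc 1 H, ‖(starRingEnd ℂ) (F (f x + M + (i : ℤ))) * F (f x + M + (i : ℤ) + (Q (x + p.2) - Q (x + p.1)))‖ ≤ 1 := by
          intro i _
          rw [norm_mul, RCLike.norm_conj]
          exact mul_le_one₀ (hF _) (norm_nonneg _) (hF _)
        refine (sum_le_sum e2).trans (le_of_eq ?_)
        rw [sum_const, Nat.card_Icc, nsmul_eq_mul, mul_one, Nat.add_sub_cancel]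
      have e2 := norm_sum_le_of_le (Icc 1 N) e1
      rw [sum_const, Nat.card_Icc, nsmul_eq_mul, Nat.add_sub_cancel] at e2
      have : 0 ≤ ε / 4 * N * H := by positivity
      linarith
    · rw [zero_add]
      have e1 : C p ≤ ∑ p ∈ range K ×ˢ range K, C p := single_le_sum (fun _ _ => Nat.zero_le _) hp
      have e2 : N₀ p ≤ ∑ p ∈ range K ×ˢ range K, N₀ p := single_le_sum (fun _ _ => Nat.zero_le _) hp
      exact hCN p h N (by omega) H (le_trans (Nat.mul_le_mul_right _ (by omega)) hH) hHB M hM _ (hΦ' φ hφ p.1 p.2)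
  have hJ : J F f M N H K Q φ ≤ ∑ p ∈ range K ×ˢ range K, (((if p.1 = p.2 then (N : ℝ) * H else 0) + ε / 4 * N * H) + N * (2 * (C₁ * D))) := by
    have e1 : J F f M N H K Q φ ≤ ‖((J F f M N H K Q φ : ℝ) : ℂ)‖ := by
      rw [Complex.norm_real, Real.norm_eq_abs]
      exact le_abs_self _
    refine e1.trans ?_
    rw [hexp]
    refine (norm_sum_le _ _).trans (sum_le_sum fun p hp => ?_)
    exact (hpair p hp).trans (add_le_add (hdiag p hp) le_rfl)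
  refine hJ.trans ?_
  rw [sum_add_distrib, sum_add_distrib, sum_const, sum_const, card_product, card_range, nsmul_eq_mul, nsmul_eq_mul]
  have hd : ∑ p ∈ range K ×ˢ range K, (if p.1 = p.2 then (N : ℝ) * H else 0) = K * (N * H) := by
    rw [sum_product]
    have : ∀ k ∈ range K, ∑ k' ∈ range K, (if k = k' then (N : ℝ) * H else 0) = N * H := by
      intro k hk
      rw [sum_ite_eq, if_pos hk]
    simp only
    rw [sum_congr rfl this, sum_const, card_range, nsmul_eq_mul]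
  rw [hd]
  push_cast
  have c1 : (K : ℝ) * (N * H) ≤ ε / 4 * K ^ 2 * N * H := by
    have : (K * (N * H) : ℝ) * 4 ≤ K * (N * H) * (ε * K) := mul_le_mul_of_nonneg_left hKε (by positivity)
    nlinarith
  have c2 : (K : ℝ) * K * (N * (2 * (C₁ * D))) ≤ ε / 4 * K ^ 2 * N * H := by
    have : (K : ℝ) * K * N * (8 * (C₁ : ℝ) * D) ≤ K * K * N * (ε * H) := mul_le_mul_of_nonneg_left hHC1 (by positivity)
    nlinarith
  have c3 : (K : ℝ) * K * (ε / 4 * N * H) = ε / 4 * K ^ 2 * N * H := by ring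
  have c4 : 0 ≤ ε / 4 * K ^ 2 * N * H := by positivity
  have c5 : ε * K ^ 2 * N * H = ε / 4 * K ^ 2 * N * H + ε / 4 * K ^ 2 * N * H + ε / 4 * K ^ 2 * N * H + ε / 4 * K ^ 2 * N * H := by ring
  linarith

end Pool.Agent.TH893.PC
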