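import Pool.Agent.TH893.PC.Base
import Pool.Agent.TH893.PC.Step

/-!
# The linear case
-/

set_option autoImplicit false

namespace Pool.Agent.TH893.PC

open Finset
open Pool.Agent.H807R2.Dav (ee norm_ee ee_add ee_int ee_pow ee_zero)

/-- the values of `f` at the arguments in `(δ N, N]` are well spaced -/
def Cnt (d : ℕ) (f : ℤ → ℤ) : Prop := ∀ δ : ℝ, 0 < δ → ∃ c : ℝ, 0 < c ∧ ∃ N₀ : ℕ, ∀ N : ℕ, N₀ ≤ N → ∀ (a : ℤ) (H : ℕ),
  (((Icc 1 N).filter (fun x : ℕ => δ * N < x ∧ a ≤ f x ∧ f x < a + H)).card : ℝ) ≤ H / (c * (N : ℝ) ^ (d - 1)) + 1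

/-- the size of the values -/
def Rng (d : ℕ) (f : ℤ → ℤ) : Prop := ∃ C : ℕ, ∀ N : ℕ, 1 ≤ N → ∀ x : ℤ, 0 ≤ x → x ≤ N → |f x| ≤ C * (N : ℤ) ^ d

/-- linear phases -/
def Lph (φ : ℤ → ℂ) : Prop := (∀ x, ‖φ x‖ ≤ 1) ∧ ∃ β : ℝ, ∀ (x : ℤ) (k : ℕ), φ (x + k) = φ x * ee ((k : ℝ) * β)

lemma sum_window (v : ℤ → ℝ) (a : ℤ) (H : ℕ) : ∑ i ∈ Icc 1 H, v (a + (i : ℤ)) = ∑ m ∈ Ioc a (a + H), v m := by
  refine sum_nbij (fun i : ℕ => a + (i : ℤ)) ?_ ?_ ?_ ?_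
  · intro i hi
    rw [mem_Icc] at hi
    rw [mem_Ioc]
    omega
  · intro i _ j _ hij
    have : a + (i : ℤ) = a + (j : ℤ) := hij
    omega
  · intro m hm
    have hm1 := mem_Ioc.1 (mem_coe.1 hm)
    refine ⟨(m - a).toNat, mem_coe.2 (mem_Icc.2 (by omega)), ?_⟩
    simp only
    omega
  · intro i _
    rfl

variable {F : ℤ → ℂ} {f : ℤ → ℤ} {d B : ℕ}

theorem lin (hF : ∀ a, ‖F a‖ ≤ 1) (hB : Base F) (hd : 1 ≤ d) (hcnt : Cnt d f) (hr : Rng d f) {Q : ℤ → ℤ} {c : ℤ} (hc : c ≠ 0)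
    (hQ : ∀ (x : ℤ) (k : ℕ), Q (x + k) - Q x = c * k) : Small F f d B Q Lph := by
  intro ε hε
  obtain ⟨c₀, hc₀, N₁, h1⟩ := hcnt (ε / 4) (by positivity)
  obtain ⟨C, hC⟩ := hr
  obtain ⟨A, hA⟩ : ∃ A : ℕ, A = C + 2 * B + 1 := ⟨_, rfl⟩
  have hA0 : (0 : ℝ) < A := by exact_mod_cast (by omega : 0 < A)
  obtain ⟨ε₁, hε₁⟩ : ∃ ε₁ : ℝ, ε₁ = ε / (2 * (1 / c₀ + 1) * A) := ⟨_, rfl⟩
  have hε₁0 : 0 < ε₁ := by rw [hε₁]; positivity
  obtain ⟨K₀, h2⟩ := hB c hc ε₁ hε₁0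
  refine ⟨K₀, fun K hK => ?_⟩
  obtain ⟨Y₀, h3⟩ := h2 K hK
  refine ⟨1, N₁ + Y₀ + 1, fun N hN H hH hHB M hM φ hφ => ?_⟩
  obtain ⟨hφ1, β, hβ⟩ := hφ
  have hN1 : 1 ≤ N := by omega
  have hN0 : (0 : ℝ) < N := by exact_mod_cast hN1
  have hK0 : (0 : ℝ) ≤ K := Nat.cast_nonneg _
  have hH0 : (0 : ℝ) ≤ H := Nat.cast_nonneg _
  obtain ⟨D, hD⟩ : ∃ D : ℝ, D = (N : ℝ) ^ (d - 1) := ⟨_, rfl⟩
  have hD0 : 0 < D := by rw [hD]; positivity
  have hDH : D ≤ H := by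
    rw [hD]
    rw [one_mul] at hH
    exact_mod_cast hH
  obtain ⟨v, hv⟩ : ∃ v : ℤ → ℝ, v = fun m => ‖∑ k ∈ range K, ee ((k : ℝ) * β) * F (m + c * k)‖ := ⟨_, rfl⟩
  have hv0 : ∀ m, 0 ≤ v m := fun m => by rw [hv]; positivity
  have hvK : ∀ m, v m ≤ K := by
    intro m
    rw [hv]
    refine (norm_sum_le _ _).trans ?_
    have e1 : ∀ k ∈ range K, ‖ee ((k : ℝ) * β) * F (m + c * k)‖ ≤ 1 := by
      intro k _
      rw [norm_mul, norm_ee, one_mul]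
      exact hF _
    refine (sum_le_sum e1).trans (le_of_eq ?_)
    rw [sum_const, card_range, nsmul_eq_mul, mul_one]
  have hVv : ∀ x m : ℤ, ‖V F K Q φ x m‖ ≤ v m := by
    intro x m
    unfold V
    have e1 : ∀ k ∈ range K, φ (x + k) * F (m + (Q (x + k) - Q x)) = φ x * (ee ((k : ℝ) * β) * F (m + c * k)) := by
      intro k _
      rw [hβ, hQ]
      ring
    rw [sum_congr rfl e1, ← mul_sum, norm_mul, hv]
    exact mul_le_of_le_one_left (norm_nonneg _) (hφ1 _)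
  obtain ⟨Y, hY⟩ : ∃ Y : ℕ, Y = A * N ^ d := ⟨_, rfl⟩
  have hNd : N ≤ N ^ d := Nat.le_self_pow (by omega) N
  have hYY : Y₀ ≤ Y := by
    rw [hY]
    have : N ^ d ≤ A * N ^ d := Nat.le_mul_of_pos_left _ (by omega)
    omega
  have h4 : ∑ m ∈ Icc (-(Y : ℤ)) Y, v m ≤ ε₁ * K * Y := by
    rw [hv]
    exact h3 Y hYY β
  -- the bound by the first power
  have hJ : J F f M N H K Q φ ≤ K * ∑ x ∈ Icc 1 N, ∑ m ∈ Ioc (f x + M) (f x + M + H), v m := by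
    unfold J
    rw [mul_sum]
    refine sum_le_sum fun x _ => ?_
    rw [← sum_window, mul_sum]
    refine sum_le_sum fun i _ => ?_
    have e1 := hVv (x : ℤ) (f x + M + (i : ℤ))
    have e2 := hvK (f x + M + (i : ℤ))
    have e3 : ‖V F K Q φ (x : ℤ) (f x + M + (i : ℤ))‖ ^ 2 ≤ v (f x + M + (i : ℤ)) ^ 2 := pow_le_pow_left₀ (norm_nonneg _) e1 2
    refine e3.trans ?_
    rw [sq]
    exact mul_le_mul_of_nonneg_right e2 (hv0 _)
  -- small arguments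
  have hsmall : ∑ x ∈ (Icc 1 N).filter (fun x : ℕ => ¬ (ε / 4 * N < x)), ∑ m ∈ Ioc (f x + M) (f x + M + H), v m ≤
      ε / 4 * N * H * K := by
    have e1 : ∀ x ∈ (Icc 1 N).filter (fun x : ℕ => ¬ (ε / 4 * N < x)), ∑ m ∈ Ioc (f x + M) (f x + M + H), v m ≤ H * K := by
      intro x _
      refine (sum_le_sum fun m _ => hvK m).trans (le_of_eq ?_)
      rw [sum_const, nsmul_eq_mul, Int.card_Ioc, add_sub_cancel_left, Int.toNat_natCast]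
    refine (sum_le_sum e1).trans ?_
    rw [sum_const, nsmul_eq_mul]
    have e2 : (((Icc 1 N).filter (fun x : ℕ => ¬ (ε / 4 * N < x))).card : ℝ) ≤ ε / 4 * N := by
      have e3 : (Icc 1 N).filter (fun x : ℕ => ¬ (ε / 4 * N < x)) ⊆ Icc 1 ⌊ε / 4 * N⌋₊ := by
        intro x hx
        rw [mem_filter, mem_Icc, not_lt] at hx
        exact mem_Icc.2 ⟨hx.1.1, Nat.le_floor hx.2⟩
      have e4 := card_le_card e3
      rw [Nat.card_Icc, Nat.add_sub_cancel] at e4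
      have e5 : (⌊ε / 4 * N⌋₊ : ℝ) ≤ ε / 4 * N := Nat.floor_le (by positivity)
      have e6 : (((Icc 1 N).filter (fun x : ℕ => ¬ (ε / 4 * N < x))).card : ℝ) ≤ (⌊ε / 4 * N⌋₊ : ℝ) := by exact_mod_cast e4
      linarith
    have := mul_le_mul_of_nonneg_right e2 (by positivity : (0 : ℝ) ≤ H * K)
    linarith
  -- large arguments
  have hlarge : ∑ x ∈ (Icc 1 N).filter (fun x : ℕ => ε / 4 * N < x), ∑ m ∈ Ioc (f x + M) (f x + M + H), v m ≤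
      ε / 2 * N * H * K := by
    have e1 : ∀ x ∈ (Icc 1 N).filter (fun x : ℕ => ε / 4 * N < x), ∑ m ∈ Ioc (f x + M) (f x + M + H), v m =
        ∑ m ∈ Icc (-(Y : ℤ)) Y, if (m - M - H ≤ f x ∧ f x < m - M - H + H) then v m else 0 := by
      intro x hx
      have hx1 := mem_Icc.1 (mem_filter.1 hx).1
      have hfx := abs_le.1 (hC N hN1 x (by positivity) (by exact_mod_cast hx1.2))
      have hM1 := abs_le.1 hM
      have hHB' : (H : ℤ) ≤ B * (N : ℤ) ^ d := by exact_mod_cast hHB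
      have hNd0 : (0 : ℤ) ≤ (N : ℤ) ^ d := by positivity
      have hYe : (Y : ℤ) = C * (N : ℤ) ^ d + 2 * (B * (N : ℤ) ^ d) + (N : ℤ) ^ d := by
        rw [hY, hA]; push_cast; ring
      rw [← sum_filter]
      refine sum_congr ?_ fun _ _ => rfl
      ext m
      rw [mem_filter, mem_Ioc, mem_Icc]
      constructor
      · rintro ⟨h5, h6⟩
        refine ⟨⟨?_, ?_⟩, ?_, ?_⟩ <;> linarith
      · rintro ⟨_, h5, h6⟩
        constructor <;> linarith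
    rw [sum_congr rfl e1, sum_comm]
    have e2 : ∀ m ∈ Icc (-(Y : ℤ)) Y, ∑ x ∈ (Icc 1 N).filter (fun x : ℕ => ε / 4 * N < x),
        (if (m - M - H ≤ f x ∧ f x < m - M - H + H) then v m else 0) ≤ (1 / c₀ + 1) * (H / D) * v m := by
      intro m _
      rw [← sum_filter, sum_const, filter_filter, nsmul_eq_mul]
      refine mul_le_mul_of_nonneg_right ?_ (hv0 m)
      refine (h1 N (by omega) (m - M - H) H).trans ?_
      rw [← hD]
      have e3 : 1 ≤ H / D := by rwa [one_le_div hD0]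
      have e4 : (H : ℝ) / (c₀ * D) = 1 / c₀ * (H / D) := by field_simp
      rw [e4]
      linarith
    refine (sum_le_sum e2).trans ?_
    rw [← mul_sum]
    have e3 : (1 / c₀ + 1) * (H / D) * ∑ m ∈ Icc (-(Y : ℤ)) Y, v m ≤ (1 / c₀ + 1) * (H / D) * (ε₁ * K * Y) :=
      mul_le_mul_of_nonneg_left h4 (by positivity)
    refine e3.trans (le_of_eq ?_)
    have e4 : (Y : ℝ) = A * (N * D) := by
      rw [hY, hD]
      push_cast
      rw [← pow_succ', Nat.sub_add_cancel hd]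
    rw [e4, hε₁]
    field_simp
  have hsplit : ∑ x ∈ Icc 1 N, ∑ m ∈ Ioc (f x + M) (f x + M + H), v m =
      ∑ x ∈ (Icc 1 N).filter (fun x : ℕ => ε / 4 * N < x), ∑ m ∈ Ioc (f x + M) (f x + M + H), v m +
      ∑ x ∈ (Icc 1 N).filter (fun x : ℕ => ¬ (ε / 4 * N < x)), ∑ m ∈ Ioc (f x + M) (f x + M + H), v m :=
    (sum_filter_add_sum_filter_not _ _ _).symm
  refine hJ.trans ?_
  rw [hsplit]
  have h5 : (K : ℝ) * (∑ x ∈ (Icc 1 N).filter (fun x : ℕ => ε / 4 * N < x), ∑ m ∈ Ioc (f x + M) (f x + M + H), v m +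
      ∑ x ∈ (Icc 1 N).filter (fun x : ℕ => ¬ (ε / 4 * N < x)), ∑ m ∈ Ioc (f x + M) (f x + M + H), v m) ≤
      K * (ε / 2 * N * H * K + ε / 4 * N * H * K) := mul_le_mul_of_nonneg_left (add_le_add hlarge hsmall) hK0
  refine h5.trans ?_
  have h6 : 0 ≤ ε * K ^ 2 * N * H := by positivity
  nlinarith

end Pool.Agent.TH893.PC
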