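import Pool.Agent.TH893.PC.Poly

/-!
# The mean square over the constant terms, and all the intervals simultaneously
-/

set_option autoImplicit false

namespace Pool.Agent.TH893.PC

open Finset Polynomial
open Pool.Agent.H807R2.Dav (ee norm_ee ee_add ee_int ee_pow ee_zero)

/-- the sum over the initial segment -/
noncomputable def SS (F : ℤ → ℂ) (f : ℤ[X]) (g : ℝ[X]) (M : ℤ) (i : ℕ) (N : ℕ) : ℂ :=
  ∑ n ∈ Icc 1 N, ee (g.eval ((n : ℤ) : ℝ)) * F (f.eval (n : ℤ) + M + (i : ℤ))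

theorem ms {F : ℤ → ℂ} (hF : ∀ a, ‖F a‖ ≤ 1) (hB : Base F) (B : ℕ) {f : ℤ[X]} (hf : 1 ≤ f.natDegree) {ε : ℝ} (hε : 0 < ε) :
    ∃ C N₀ : ℕ, ∀ N : ℕ, N₀ ≤ N → ∀ H : ℕ, C * N ^ (f.natDegree - 1) ≤ H → H ≤ B * N ^ f.natDegree →
      ∀ M : ℤ, |M| ≤ B * N ^ f.natDegree → ∀ g : ℝ[X], g.natDegree ≤ f.natDegree →
      ∑ i ∈ Icc 1 H, ‖SS F f g M i N‖ ^ 2 ≤ ε * N ^ 2 * H := by
  obtain ⟨e, he⟩ : ∃ e, f.natDegree = e + 1 := ⟨f.natDegree - 1, by omega⟩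
  obtain ⟨K₀, h0⟩ := small_poly hF hB B hf e f he le_rfl (ε / 4) (by positivity)
  obtain ⟨K, hK⟩ : ∃ K, K = K₀ + 1 := ⟨_, rfl⟩
  have hK1 : 1 ≤ K := by omega
  have hK0 : (0 : ℝ) < K := by exact_mod_cast hK1
  obtain ⟨C, N₁, h1⟩ := h0 K (by omega)
  refine ⟨C, N₁ + ⌈16 * (K : ℝ) ^ 2 / ε⌉₊ + 1, fun N hN H hH hHB M hM g hg => ?_⟩
  have hN1 : 1 ≤ N := by omega
  have hN0 : (1 : ℝ) ≤ N := by exact_mod_cast hN1
  have hNK : 16 * (K : ℝ) ^ 2 ≤ ε * N := by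
    have e1 : 16 * (K : ℝ) ^ 2 / ε ≤ N := (Nat.le_ceil _).trans (by exact_mod_cast (by omega : ⌈16 * (K : ℝ) ^ 2 / ε⌉₊ ≤ N))
    rw [div_le_iff₀ hε] at e1
    linarith
  have hJ := h1 N (by omega) H hH hHB M hM (fun x : ℤ => ee (g.eval (x : ℝ))) (ph_poly e g (by omega))
  have hH0 : (0 : ℝ) ≤ H := Nat.cast_nonneg _
  have hone : ∀ i ∈ Icc 1 H, (K : ℝ) ^ 2 * ‖SS F f g M i N‖ ^ 2 ≤
      2 * N * ∑ x ∈ Icc 1 N, ‖V F K (fun x : ℤ => f.eval x) (fun x : ℤ => ee (g.eval (x : ℝ))) (x : ℤ) (f.eval (x : ℤ) + M + (i : ℤ))‖ ^ 2 +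
        8 * (K : ℝ) ^ 4 := by
    intro i _
    obtain ⟨a, ha⟩ : ∃ a : ℤ → ℂ, a = fun x : ℤ => ee (g.eval (x : ℝ)) * F (f.eval x + M + (i : ℤ)) := ⟨_, rfl⟩
    have ha1 : ∀ x, ‖a x‖ ≤ 1 := by
      intro x
      rw [ha]
      simp only
      rw [norm_mul, norm_ee, one_mul]
      exact hF _
    have hS : SS F f g M i N = ∑ x ∈ Icc 1 N, a (x : ℤ) := by
      rw [ha]; rfl
    have hV : ∀ x : ℕ, V F K (fun x : ℤ => f.eval x) (fun x : ℤ => ee (g.eval (x : ℝ))) (x : ℤ) (f.eval (x : ℤ) + M + (i : ℤ)) =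
        ∑ k ∈ range K, a ((k : ℤ) + (x : ℤ)) := by
      intro x
      rw [ha]
      unfold V
      refine sum_congr rfl fun k _ => ?_
      simp only
      rw [add_comm (x : ℤ) (k : ℤ)]
      congr 2
      ring
    have e1 : ∀ k ∈ range K, ‖∑ x ∈ Icc 1 N, a ((k : ℤ) + (x : ℤ)) - ∑ x ∈ Icc 1 N, a (x : ℤ)‖ ≤ 2 * K := by
      intro k hk
      have e2 := shift_win a ha1 N (k : ℤ) 0
      simp only [zero_add, sub_zero, mul_one] at e2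
      refine e2.trans ?_
      rw [abs_of_nonneg (by positivity)]
      have e3 : (((k : ℤ)) : ℝ) ≤ K := by exact_mod_cast (mem_range.1 hk).le
      linarith
    have e2 : (K : ℂ) * ∑ x ∈ Icc 1 N, a (x : ℤ) = ∑ x ∈ Icc 1 N, ∑ k ∈ range K, a ((k : ℤ) + (x : ℤ)) -
        ∑ k ∈ range K, (∑ x ∈ Icc 1 N, a ((k : ℤ) + (x : ℤ)) - ∑ x ∈ Icc 1 N, a (x : ℤ)) := by
      rw [sum_sub_distrib, sum_comm, sum_const, card_range, nsmul_eq_mul]
      ring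
    have e3 : (K : ℝ) * ‖SS F f g M i N‖ ≤ ‖∑ x ∈ Icc 1 N, ∑ k ∈ range K, a ((k : ℤ) + (x : ℤ))‖ + 2 * K ^ 2 := by
      have e4 : (K : ℝ) * ‖SS F f g M i N‖ = ‖(K : ℂ) * ∑ x ∈ Icc 1 N, a (x : ℤ)‖ := by
        rw [hS, norm_mul, Complex.norm_natCast]
      rw [e4, e2]
      refine (norm_sub_le _ _).trans (add_le_add le_rfl ?_)
      refine (norm_sum_le _ _).trans ((sum_le_sum e1).trans (le_of_eq ?_))
      rw [sum_const, card_range, nsmul_eq_mul]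
      ring
    have e5 : ‖∑ x ∈ Icc 1 N, ∑ k ∈ range K, a ((k : ℤ) + (x : ℤ))‖ ^ 2 ≤
        N * ∑ x ∈ Icc 1 N, ‖∑ k ∈ range K, a ((k : ℤ) + (x : ℤ))‖ ^ 2 := by
      have e6 : ‖∑ x ∈ Icc 1 N, ∑ k ∈ range K, a ((k : ℤ) + (x : ℤ))‖ ^ 2 ≤
          (∑ x ∈ Icc 1 N, ‖∑ k ∈ range K, a ((k : ℤ) + (x : ℤ))‖) ^ 2 :=
        pow_le_pow_left₀ (norm_nonneg _) (norm_sum_le _ _) 2
      refine e6.trans ?_
      have e7 := sq_sum_le_card_mul_sum_sq (s := Icc 1 N) (f := fun x : ℕ => ‖∑ k ∈ range K, a ((k : ℤ) + (x : ℤ))‖)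
      rw [Nat.card_Icc, Nat.add_sub_cancel] at e7
      exact e7
    have e8 := pow_le_pow_left₀ (by positivity) e3 2
    simp only [hV]
    set u := ‖∑ x ∈ Icc 1 N, ∑ k ∈ range K, a ((k : ℤ) + (x : ℤ))‖
    nlinarith [sq_nonneg (u - 2 * (K : ℝ) ^ 2)]
  have hsum := sum_le_sum hone
  rw [← mul_sum, sum_add_distrib, ← mul_sum, sum_comm, sum_const, Nat.card_Icc, Nat.add_sub_cancel, nsmul_eq_mul] at hsum
  have hJe : ∑ x ∈ Icc 1 N, ∑ i ∈ Icc 1 H, ‖V F K (fun x : ℤ => f.eval x) (fun x : ℤ => ee (g.eval (x : ℝ))) (x : ℤ) (f.eval (x : ℤ) + M + (i : ℤ))‖ ^ 2 =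
      J F (fun x : ℤ => f.eval x) M N H K (fun x : ℤ => f.eval x) (fun x : ℤ => ee (g.eval (x : ℝ))) := rfl
  rw [hJe] at hsum
  have h2 : (K : ℝ) ^ 2 * ∑ i ∈ Icc 1 H, ‖SS F f g M i N‖ ^ 2 ≤ (K : ℝ) ^ 2 * (ε * N ^ 2 * H) := by
    refine hsum.trans ?_
    have c1 : 2 * (N : ℝ) * J F (fun x : ℤ => f.eval x) M N H K (fun x : ℤ => f.eval x) (fun x : ℤ => ee (g.eval (x : ℝ))) ≤
        2 * N * (ε / 4 * K ^ 2 * N * H) := mul_le_mul_of_nonneg_left hJ (by positivity)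
    have c2 : (H : ℝ) * (8 * (K : ℝ) ^ 4) ≤ K ^ 2 * (ε / 2 * N ^ 2 * H) := by
      have c3 : (H : ℝ) * K ^ 2 * (16 * (K : ℝ) ^ 2) ≤ H * K ^ 2 * (ε * N) := mul_le_mul_of_nonneg_left hNK (by positivity)
      have c4 : (H : ℝ) * K ^ 2 * (ε * N) ≤ H * K ^ 2 * (ε * N ^ 2) := by
        refine mul_le_mul_of_nonneg_left ?_ (by positivity)
        refine mul_le_mul_of_nonneg_left ?_ hε.le
        nlinarith
      nlinarith
    have c5 : 2 * (N : ℝ) * (ε / 4 * K ^ 2 * N * H) = K ^ 2 * (ε / 2 * N ^ 2 * H) := by ring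
    have c6 : (K : ℝ) ^ 2 * (ε * N ^ 2 * H) = K ^ 2 * (ε / 2 * N ^ 2 * H) + K ^ 2 * (ε / 2 * N ^ 2 * H) := by ring
    linarith
  exact le_of_mul_le_mul_left h2 (by positivity)

lemma SS_diff {F : ℤ → ℂ} (hF : ∀ a, ‖F a‖ ≤ 1) (f : ℤ[X]) (g : ℝ[X]) (M : ℤ) (i : ℕ) {Y X : ℕ} (h : Y ≤ X) :
    ‖SS F f g M i X - SS F f g M i Y‖ ≤ (X : ℝ) - Y := by
  have h1 : SS F f g M i X - SS F f g M i Y = ∑ n ∈ Ioc Y X, ee (g.eval ((n : ℤ) : ℝ)) * F (f.eval (n : ℤ) + M + (i : ℤ)) := by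
    unfold SS
    have e0 : ∀ Z : ℕ, Icc 1 Z = Ioc 0 Z := fun Z => rfl
    rw [e0, e0, ← sum_Ioc_consecutive _ (Nat.zero_le Y) h]
    ring
  rw [h1]
  refine (norm_sum_le _ _).trans ?_
  have h2 : ∀ n ∈ Ioc Y X, ‖ee (g.eval ((n : ℤ) : ℝ)) * F (f.eval (n : ℤ) + M + (i : ℤ))‖ ≤ 1 := by
    intro n _
    rw [norm_mul, norm_ee, one_mul]
    exact hF _
  refine (sum_le_sum h2).trans (le_of_eq ?_)
  rw [sum_const, Nat.card_Ioc, nsmul_eq_mul, mul_one, Nat.cast_sub h]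

open Classical in
/-- all the intervals simultaneously -/
theorem allint {F : ℤ → ℂ} (hF : ∀ a, ‖F a‖ ≤ 1) (hB : Base F) (B : ℕ) {f : ℤ[X]} (hf : 1 ≤ f.natDegree) {ε : ℝ} (hε : 0 < ε) :
    ∃ C N₀ : ℕ, ∀ N : ℕ, N₀ ≤ N → ∀ H : ℕ, C * N ^ (f.natDegree - 1) ≤ H → H ≤ B * N ^ f.natDegree →
      ∀ M : ℤ, |M| ≤ B * N ^ f.natDegree → ∀ g : ℝ[X], g.natDegree ≤ f.natDegree →
      (((Icc 1 H).filter (fun i => ¬ ∀ Y X : ℕ, Y ≤ X → X ≤ N → ‖SS F f g M i X - SS F f g M i Y‖ ≤ ε * N)).card : ℝ) ≤ ε * H := by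
  obtain ⟨d, hd⟩ : ∃ d, d = f.natDegree := ⟨_, rfl⟩
  obtain ⟨B', hB'⟩ : ∃ B' : ℕ, B' = B * ⌈(16 / ε) ^ d⌉₊ := ⟨_, rfl⟩
  obtain ⟨C, N₁, h1⟩ := ms hF hB B' hf (ε := ε ^ 4 / 128) (by positivity)
  refine ⟨C, ⌈16 * ((N₁ : ℝ) + 1) / ε⌉₊ + 1, fun N hN H hH hHB M hM g hg => ?_⟩
  rw [← hd] at h1 hH hHB hM hg
  have hN1 : 1 ≤ N := by omega
  have hN0 : (1 : ℝ) ≤ N := by exact_mod_cast hN1
  have hNN : 16 * ((N₁ : ℝ) + 1) ≤ ε * N := by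
    have e1 : 16 * ((N₁ : ℝ) + 1) / ε ≤ N := (Nat.le_ceil _).trans (by exact_mod_cast (by omega : ⌈16 * ((N₁ : ℝ) + 1) / ε⌉₊ ≤ N))
    rw [div_le_iff₀ hε] at e1
    linarith
  have hH0 : (0 : ℝ) ≤ H := Nat.cast_nonneg _
  have hN₁0 : (0 : ℝ) ≤ N₁ := Nat.cast_nonneg _
  obtain ⟨q, hq⟩ : ∃ q : ℕ, q = ⌊ε * N / 8⌋₊ := ⟨_, rfl⟩
  have hq1 : (q : ℝ) ≤ ε * N / 8 := by rw [hq]; exact Nat.floor_le (by positivity)
  have hq2 : ε * N / 16 ≤ q := by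
    have := Nat.lt_floor_add_one (ε * N / 8)
    rw [← hq] at this
    linarith
  have hqN₁ : N₁ + 1 ≤ q := by
    have : ((N₁ + 1 : ℕ) : ℝ) ≤ q := by push_cast; linarith
    exact_mod_cast this
  have hq0 : (0 : ℝ) < q := by exact_mod_cast (by omega : 0 < q)
  obtain ⟨bad, hbad⟩ : ∃ bad : ℕ → Finset ℕ, bad = fun j => (Icc 1 H).filter (fun i => 3 * ε * N / 8 < ‖SS F f g M i (j * q)‖) := ⟨_, rfl⟩
  have hJ : ((N / q : ℕ) : ℝ) ≤ 16 / ε := by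
    have e1 : ((N / q : ℕ) : ℝ) ≤ (N : ℝ) / q := Nat.cast_div_le
    refine e1.trans ?_
    rw [div_le_div_iff₀ hq0 hε]
    linarith
  have hcard : ∀ j ∈ Icc 1 (N / q), ((bad j).card : ℝ) ≤ ε ^ 2 / 16 * H := by
    intro j hj
    have hj1 := mem_Icc.1 hj
    have hjN : j * q ≤ N := by
      have := Nat.mul_le_mul_right q hj1.2
      exact this.trans (Nat.div_mul_le_self N q)
    have hqj : q ≤ j * q := Nat.le_mul_of_pos_left _ (by omega)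
    have hpow : N ^ d ≤ ⌈(16 / ε) ^ d⌉₊ * (j * q) ^ d := by
      have e1 : (N : ℝ) ≤ 16 / ε * ((j * q : ℕ) : ℝ) := by
        have e2 : ((q : ℕ) : ℝ) ≤ ((j * q : ℕ) : ℝ) := by exact_mod_cast hqj
        rw [div_mul_eq_mul_div, le_div_iff₀ hε]
        linarith
      have e3 : (N : ℝ) ^ d ≤ (⌈(16 / ε) ^ d⌉₊ : ℝ) * ((j * q : ℕ) : ℝ) ^ d := by
        refine (pow_le_pow_left₀ (by positivity) e1 d).trans ?_
        rw [mul_pow]
        exact mul_le_mul_of_nonneg_right (Nat.le_ceil _) (by positivity)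
      exact_mod_cast e3
    have h2 := h1 (j * q) (by omega) H (le_trans (Nat.mul_le_mul_left _ (Nat.pow_le_pow_left hjN _)) hH)
      (hHB.trans (by rw [hB', mul_assoc]; exact Nat.mul_le_mul_left _ hpow)) M (hM.trans (by
        have e1 : B * N ^ d ≤ B' * (j * q) ^ d := by rw [hB', mul_assoc]; exact Nat.mul_le_mul_left _ hpow
        exact_mod_cast e1)) g hg
    have h3 : ((bad j).card : ℝ) * (3 * ε * N / 8) ^ 2 ≤ ∑ i ∈ Icc 1 H, ‖SS F f g M i (j * q)‖ ^ 2 := by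
      rw [← nsmul_eq_mul, ← sum_const, hbad]
      refine le_trans (sum_le_sum fun i hi => ?_) (sum_le_sum_of_subset_of_nonneg (filter_subset _ _) fun _ _ _ => by positivity)
      exact pow_le_pow_left₀ (by positivity) (mem_filter.1 hi).2.le 2
    have h4 : ((j * q : ℕ) : ℝ) ≤ N := by exact_mod_cast hjN
    have h5 : ((j * q : ℕ) : ℝ) ^ 2 ≤ (N : ℝ) ^ 2 := pow_le_pow_left₀ (by positivity) h4 2
    have h6 := h3.trans h2
    have h7 : ε ^ 4 / 128 * ((j * q : ℕ) : ℝ) ^ 2 * H ≤ ε ^ 4 / 128 * (N : ℝ) ^ 2 * H :=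
      mul_le_mul_of_nonneg_right (mul_le_mul_of_nonneg_left h5 (by positivity)) hH0
    have h8 : ((bad j).card : ℝ) * (3 * ε * N / 8) ^ 2 ≤ (ε ^ 2 / 16 * H) * (3 * ε * N / 8) ^ 2 := by
      refine (h6.trans h7).trans ?_
      have e1 : (ε ^ 2 / 16 * H) * (3 * ε * N / 8) ^ 2 = 9 / 1024 * (ε ^ 4 * N ^ 2 * H) := by ring
      rw [e1]
      have e2 : 0 ≤ ε ^ 4 * N ^ 2 * H := by positivity
      linarith
    exact le_of_mul_le_mul_right h8 (by positivity)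
  have hsub : (Icc 1 H).filter (fun i => ¬ ∀ Y X : ℕ, Y ≤ X → X ≤ N → ‖SS F f g M i X - SS F f g M i Y‖ ≤ ε * N) ⊆
      (Icc 1 (N / q)).biUnion bad := by
    intro i hi
    rw [mem_filter] at hi
    by_contra hcon
    apply hi.2
    have hgood : ∀ X : ℕ, X ≤ N → ‖SS F f g M i X‖ ≤ ε * N / 2 := by
      intro X hX
      have e1 : X / q * q ≤ X := Nat.div_mul_le_self X q
      have e2 : X < X / q * q + q := by
        have := Nat.lt_div_mul_add (show 0 < q by omega) (a := X)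
        exact this
      have e3 := SS_diff hF f g M i e1
      have e4 : ‖SS F f g M i (X / q * q)‖ ≤ 3 * ε * N / 8 := by
        rcases Nat.eq_zero_or_pos (X / q) with h0 | h0
        · rw [h0, zero_mul]
          have : SS F f g M i 0 = 0 := by unfold SS; simp
          rw [this, norm_zero]
          positivity
        · by_contra hlt
          push Not at hlt
          apply hcon
          rw [mem_biUnion]
          refine ⟨X / q, mem_Icc.2 ⟨h0, Nat.div_le_div_right hX⟩, ?_⟩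
          rw [hbad]
          exact mem_filter.2 ⟨hi.1, hlt⟩
      have e5 : (X : ℝ) - ((X / q * q : ℕ) : ℝ) ≤ q := by
        have : (X : ℝ) ≤ ((X / q * q + q : ℕ) : ℝ) := by exact_mod_cast e2.le
        push_cast at this ⊢
        linarith
      have e6 := norm_sub_norm_le (SS F f g M i X) (SS F f g M i (X / q * q))
      linarith
    intro Y X hYX hX
    have e1 := hgood X hX
    have e2 := hgood Y (hYX.trans hX)
    refine (norm_sub_le _ _).trans ?_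
    linarith
  have h9 : (((Icc 1 H).filter (fun i => ¬ ∀ Y X : ℕ, Y ≤ X → X ≤ N → ‖SS F f g M i X - SS F f g M i Y‖ ≤ ε * N)).card : ℝ) ≤
      ∑ j ∈ Icc 1 (N / q), ((bad j).card : ℝ) := by
    have e1 := (card_le_card hsub).trans card_biUnion_le
    exact_mod_cast e1
  refine h9.trans ((sum_le_sum hcard).trans ?_)
  rw [sum_const, Nat.card_Icc, Nat.add_sub_cancel, nsmul_eq_mul]
  have h10 := mul_le_mul_of_nonneg_right hJ (by positivity : 0 ≤ ε ^ 2 / 16 * H)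
  refine h10.trans (le_of_eq ?_)
  field_simp

end Pool.Agent.TH893.PC
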