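import Pool.Agent.TH893.PC.Lin

/-!
# Polynomials
-/

set_option autoImplicit false

namespace Pool.Agent.TH893.PC

open Finset Polynomial
open Pool.Agent.H807R2.Dav (ee norm_ee ee_add ee_int ee_pow ee_zero)

section diff
variable {R : Type*} [CommRing R] [IsDomain R]

/-- the difference of two translates -/
noncomputable def dif (p : R[X]) (a b : R) : R[X] := p.comp (X + C b) - p.comp (X + C a)

lemma dif_eval (p : R[X]) (a b x : R) : (dif p a b).eval x = p.eval (x + b) - p.eval (x + a) := by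
  unfold dif
  simp [eval_comp]

lemma dif_natDegree_le {p : R[X]} {n : ℕ} (hp : p.natDegree ≤ n + 1) (a b : R) : (dif p a b).natDegree ≤ n := by
  have hX : ∀ c : R, (X + C c : R[X]).natDegree = 1 := fun c => natDegree_X_add_C c
  have hdeg : ∀ c : R, (p.comp (X + C c)).natDegree = p.natDegree := by
    intro c
    rw [natDegree_comp, hX, mul_one]
  have hlc : ∀ c : R, (p.comp (X + C c)).leadingCoeff = p.leadingCoeff := by
    intro c
    rw [leadingCoeff_comp (by rw [hX]; exact one_ne_zero), leadingCoeff_X_add_C, one_pow, mul_one]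
  unfold dif
  rcases eq_or_ne p 0 with h0 | h0
  · simp [h0]
  rcases Nat.eq_zero_or_pos p.natDegree with h1 | h1
  · rw [eq_C_of_natDegree_eq_zero h1]
    simp
  · have hne : ∀ c : R, p.comp (X + C c) ≠ 0 := by
      intro c hc
      have := hdeg c
      rw [hc, natDegree_zero] at this
      omega
    have h2 : (p.comp (X + C b) - p.comp (X + C a)).degree < (p.comp (X + C b)).degree := by
      apply degree_sub_lt
      · rw [degree_eq_natDegree (hne b), degree_eq_natDegree (hne a), hdeg, hdeg]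
      · exact hne b
      · rw [hlc, hlc]
    rcases eq_or_ne (p.comp (X + C b) - p.comp (X + C a)) 0 with h3 | h3
    · rw [h3]; simp
    · have h4 := natDegree_lt_natDegree h3 h2
      rw [hdeg] at h4
      omega

lemma dif_coeff {p : R[X]} {n : ℕ} (hp : p.natDegree ≤ n + 1) (a b : R) :
    (dif p a b).coeff n = ((n + 1 : ℕ) : R) * p.coeff (n + 1) * (b - a) := by
  have key : ∀ c : R, (p.comp (X + C c)).coeff n = ((n + 1 : ℕ) : R) * p.coeff (n + 1) * c + p.coeff n := by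
    intro c
    have h1 : p.comp (X + C c) = taylor c p := rfl
    rw [h1, taylor_coeff]
    have h2 : (hasseDeriv n p).natDegree ≤ 1 := (natDegree_hasseDeriv_le p n).trans (by omega)
    rw [eq_X_add_C_of_natDegree_le_one h2]
    simp only [eval_add, eval_mul, eval_C, eval_X, hasseDeriv_coeff]
    rw [zero_add, Nat.choose_self, Nat.cast_one, one_mul, add_comm 1 n, Nat.choose_succ_self_right]
  unfold dif
  rw [coeff_sub, key, key]
  ring

end diff

lemma dif_natDegree_eq {p : ℤ[X]} {n : ℕ} (hp : p.natDegree = n + 1) {a b : ℤ} (hab : a ≠ b) : (dif p a b).natDegree = n := by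
  apply le_antisymm (dif_natDegree_le hp.le a b)
  apply le_natDegree_of_ne_zero
  rw [dif_coeff hp.le]
  have h1 : p.coeff (n + 1) ≠ 0 := by
    rw [← hp]
    exact leadingCoeff_ne_zero.2 (fun h => by rw [h] at hp; simp at hp)
  exact mul_ne_zero (mul_ne_zero (by exact_mod_cast (by omega : n + 1 ≠ 0)) h1) (sub_ne_zero.2 hab.symm)

lemma poly_bound {p : ℤ[X]} {n : ℕ} (hp : p.natDegree ≤ n) : ∃ C : ℕ, ∀ N : ℕ, 1 ≤ N → ∀ x : ℤ, 0 ≤ x → x ≤ N →
    |p.eval x| ≤ C * (N : ℤ) ^ n := by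
  refine ⟨∑ i ∈ range (n + 1), (p.coeff i).natAbs, fun N hN x hx0 hx1 => ?_⟩
  rw [eval_eq_sum_range' (Nat.lt_succ_of_le hp)]
  refine (abs_sum_le_sum_abs _ _).trans ?_
  push_cast
  rw [sum_mul]
  refine sum_le_sum fun i hi => ?_
  rw [abs_mul, abs_pow, abs_of_nonneg hx0]
  refine mul_le_mul_of_nonneg_left ?_ (abs_nonneg _)
  have hi1 := mem_range.1 hi
  calc x ^ i ≤ (N : ℤ) ^ i := pow_le_pow_left₀ hx0 hx1 i
    _ ≤ (N : ℤ) ^ n := pow_le_pow_right₀ (by exact_mod_cast hN) (by omega)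

lemma gr_poly {d : ℕ} (hd : 1 ≤ d) {p : ℤ[X]} (hp : p.natDegree ≤ d) : Gr d (fun x => p.eval x) := by
  intro K
  have h1 : ∀ k : ℕ, ∃ C : ℕ, ∀ N : ℕ, 1 ≤ N → ∀ x : ℤ, 0 ≤ x → x ≤ N → |(dif p 0 k).eval x| ≤ C * (N : ℤ) ^ (d - 1) :=
    fun k => poly_bound (dif_natDegree_le (by omega) _ _)
  choose C hC using h1
  refine ⟨∑ k ∈ range (K + 1), C k, fun N hN x hx0 hx1 k hk => ?_⟩
  have h2 := hC k N hN x hx0 hx1
  rw [dif_eval, add_zero] at h2
  refine h2.trans ?_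
  refine mul_le_mul_of_nonneg_right ?_ (by positivity)
  exact_mod_cast single_le_sum (f := C) (fun _ _ => Nat.zero_le _) (mem_range.2 (by omega))

lemma rng_poly {d : ℕ} {p : ℤ[X]} (hp : p.natDegree ≤ d) : Rng d (fun x => p.eval x) := by
  obtain ⟨C, hC⟩ := poly_bound hp
  exact ⟨C, hC⟩

/-- the values are well spaced -/
lemma cnt_poly {p : ℤ[X]} {n : ℕ} (hp : p.natDegree = n + 1) : Cnt (n + 1) (fun x => p.eval x) := by
  intro δ hδ
  obtain ⟨q, hq⟩ : ∃ q : ℝ[X], q = (dif p 0 1).map (Int.castRingHom ℝ) := ⟨_, rfl⟩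
  have hqn : q.natDegree = n := by
    rw [hq, natDegree_map_eq_of_injective (RingHom.injective_int _), dif_natDegree_eq hp (by norm_num)]
  have hq0 : q ≠ 0 := by
    rw [hq]
    intro h
    rw [Polynomial.map_eq_zero_iff (RingHom.injective_int _)] at h
    have h1 := dif_coeff hp.le (0 : ℤ) 1
    rw [h, coeff_zero] at h1
    have h2 : p.coeff (n + 1) ≠ 0 := by
      rw [← hp]
      exact leadingCoeff_ne_zero.2 (fun h => by rw [h] at hp; simp at hp)
    have h3 : ((n + 1 : ℕ) : ℤ) * p.coeff (n + 1) * (1 - 0) ≠ 0 := by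
      rw [sub_zero, mul_one]
      exact mul_ne_zero (by exact_mod_cast (by omega : n + 1 ≠ 0)) h2
    exact h3 h1.symm
  obtain ⟨l, hl⟩ : ∃ l : ℝ, l = q.leadingCoeff := ⟨_, rfl⟩
  have hl0 : l ≠ 0 := by rw [hl]; exact leadingCoeff_ne_zero.2 hq0
  have hl1 : 0 < |l| := abs_pos.2 hl0
  have hqe : ∀ x : ℤ, q.eval (x : ℝ) = ((p.eval (x + 1) - p.eval x : ℤ) : ℝ) := by
    intro x
    rw [hq, eval_intCast_map, dif_eval, add_zero]
    rfl
  have hasy := (isEquivalent_atTop_lead q).isLittleO.def (c := 1 / 2) (by norm_num)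
  obtain ⟨x₀, hx₀⟩ := Filter.eventually_atTop.1 hasy
  refine ⟨|l| / 2 * δ ^ n, by positivity, ⌈(max x₀ 1) / δ⌉₊ + 1, fun N hN a H => ?_⟩
  have hN1 : 1 ≤ N := by omega
  have hN0 : (0 : ℝ) < N := by exact_mod_cast hN1
  have hδN : max x₀ 1 ≤ δ * N := by
    have h1 : (max x₀ 1) / δ ≤ N := (Nat.le_ceil _).trans (by exact_mod_cast (by omega : ⌈(max x₀ 1) / δ⌉₊ ≤ N))
    rw [div_le_iff₀ hδ] at h1
    linarith
  obtain ⟨G, hG⟩ : ∃ G : ℝ, G = |l| / 2 * δ ^ n * (N : ℝ) ^ (n + 1 - 1) := ⟨_, rfl⟩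
  have hG0 : 0 < G := by rw [hG]; positivity
  rw [← hG]
  obtain ⟨s, hs⟩ : ∃ s : ℝ, s = l / |l| := ⟨_, rfl⟩
  have hs1 : |s| = 1 := by rw [hs, abs_div, abs_abs, div_self hl1.ne']
  have hsl : s * l = |l| := by
    rw [hs, div_mul_eq_mul_div, div_eq_iff hl1.ne', abs_mul_abs_self]
  have hstep : ∀ x : ℕ, δ * N < x → G ≤ s * ((p.eval ((x : ℤ) + 1) : ℤ) - (p.eval (x : ℤ) : ℤ)) := by
    intro x hx
    have hxx : x₀ ≤ (x : ℝ) := (le_max_left _ _).trans (hδN.trans hx.le)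
    have h1 := hx₀ x hxx
    have h2 := hqe (x : ℤ)
    simp only [Pi.sub_apply, Real.norm_eq_abs] at h1
    have h3 : ((x : ℤ) : ℝ) = (x : ℝ) := by push_cast; rfl
    rw [h3] at h2
    rw [h2, hqn, ← hl, abs_mul, abs_pow, abs_of_nonneg (Nat.cast_nonneg x : (0 : ℝ) ≤ (x : ℝ))] at h1
    have h4 : δ ^ n * (N : ℝ) ^ n ≤ (x : ℝ) ^ n := by
      rw [← mul_pow]
      exact pow_le_pow_left₀ (by positivity) hx.le n
    have h5 : |s * (((p.eval ((x : ℤ) + 1) - p.eval (x : ℤ) : ℤ) : ℝ) - l * (x : ℝ) ^ n)| ≤ 1 / 2 * (|l| * (x : ℝ) ^ n) := by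
      rw [abs_mul, hs1, one_mul]
      exact h1
    have h6 := (abs_le.1 h5).1
    have h7 : s * (l * (x : ℝ) ^ n) = |l| * (x : ℝ) ^ n := by rw [← mul_assoc, hsl]
    have h8 : |l| / 2 * (δ ^ n * (N : ℝ) ^ n) ≤ |l| / 2 * (x : ℝ) ^ n := mul_le_mul_of_nonneg_left h4 (by positivity)
    rw [hG, Nat.add_sub_cancel]
    push_cast at h6
    nlinarith
  have hinc : ∀ x : ℕ, δ * N < x → ∀ j : ℕ, G * j ≤ s * ((p.eval ((x : ℤ) + j) : ℤ) - (p.eval (x : ℤ) : ℤ)) := by
    intro x hx j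
    induction j with
    | zero => simp
    | succ j ih =>
      have h1 := hstep (x + j) (by push_cast; have : (0 : ℝ) ≤ j := Nat.cast_nonneg _; linarith)
      push_cast at h1 ⊢
      have e1 : (x : ℤ) + ((j : ℤ) + 1) = x + j + 1 := by ring
      rw [e1]
      nlinarith
  -- the set lies in a short interval
  obtain ⟨S, hS⟩ : ∃ S, S = (Icc 1 N).filter (fun x : ℕ => δ * N < x ∧ a ≤ p.eval (x : ℤ) ∧ p.eval (x : ℤ) < a + H) := ⟨_, rfl⟩
  rw [← hS]
  rcases S.eq_empty_or_nonempty with h0 | h0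
  · rw [h0, card_empty, Nat.cast_zero]
    positivity
  · obtain ⟨x₁, hx₁⟩ : ∃ x₁, x₁ = S.min' h0 := ⟨_, rfl⟩
    have hx₁S : x₁ ∈ S := by rw [hx₁]; exact min'_mem _ _
    have hx₁f := (mem_filter.1 (hS ▸ hx₁S)).2
    have hsub : S ⊆ Icc x₁ (x₁ + ⌊(H : ℝ) / G⌋₊) := by
      intro y hy
      have hyf := (mem_filter.1 (hS ▸ hy)).2
      have hxy : x₁ ≤ y := by rw [hx₁]; exact min'_le _ _ hy
      obtain ⟨j, rfl⟩ := Nat.exists_eq_add_of_le hxy
      have h1 := hinc x₁ hx₁f.1 j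
      push_cast at hyf
      have h2 : |((p.eval ((x₁ : ℤ) + j) : ℤ) : ℝ) - ((p.eval (x₁ : ℤ) : ℤ) : ℝ)| ≤ H := by
        rw [abs_le]
        have c1 : (a : ℝ) ≤ ((p.eval ((x₁ : ℤ) + j) : ℤ) : ℝ) := by exact_mod_cast hyf.2.1
        have c2 : ((p.eval ((x₁ : ℤ) + j) : ℤ) : ℝ) ≤ a + H := by exact_mod_cast hyf.2.2.le
        have c3 : (a : ℝ) ≤ ((p.eval (x₁ : ℤ) : ℤ) : ℝ) := by exact_mod_cast hx₁f.2.1
        have c4 : ((p.eval (x₁ : ℤ) : ℤ) : ℝ) ≤ a + H := by exact_mod_cast hx₁f.2.2.le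
        constructor <;> linarith
      have h3 : G * j ≤ H := by
        refine h1.trans ((le_abs_self _).trans ?_)
        rw [abs_mul, hs1, one_mul]
        exact h2
      refine mem_Icc.2 ⟨by omega, ?_⟩
      have h4 : j ≤ ⌊(H : ℝ) / G⌋₊ := by
        apply Nat.le_floor
        rw [le_div_iff₀ hG0]
        linarith
      omega
    have h1 := card_le_card hsub
    rw [Nat.card_Icc] at h1
    have h2 : (S.card : ℝ) ≤ (⌊(H : ℝ) / G⌋₊ : ℝ) + 1 := by
      have : S.card ≤ ⌊(H : ℝ) / G⌋₊ + 1 := by omega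
      exact_mod_cast this
    have h3 : (⌊(H : ℝ) / G⌋₊ : ℝ) ≤ (H : ℝ) / G := Nat.floor_le (by positivity)
    linarith

/-- polynomial phases -/
def Ph : ℕ → (ℤ → ℂ) → Prop
  | 0 => Lph
  | n + 1 => fun φ => (∀ x, ‖φ x‖ ≤ 1) ∧ ∀ k k' : ℕ, Ph n (fun x => φ (x + k') * (starRingEnd ℂ) (φ (x + k)))

lemma Ph.le {n : ℕ} {φ : ℤ → ℂ} (h : Ph n φ) : ∀ x, ‖φ x‖ ≤ 1 := by
  cases n with
  | zero => exact h.1
  | succ n => exact h.1

lemma conj_ee (x : ℝ) : (starRingEnd ℂ) (ee x) = ee (-x) := by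
  unfold ee
  rw [← Complex.exp_conj]
  congr 1
  simp only [map_mul, Complex.conj_ofReal, Complex.conj_I, map_ofNat]
  push_cast
  ring

lemma ph_poly (n : ℕ) : ∀ g : ℝ[X], g.natDegree ≤ n + 1 → Ph n (fun x => ee (g.eval (x : ℝ))) := by
  induction n with
  | zero =>
    intro g hg
    refine ⟨fun x => (norm_ee _).le, g.coeff 1, fun x k => ?_⟩
    have ev : ∀ y : ℝ, g.eval y = g.coeff 1 * y + g.coeff 0 := by
      intro y
      conv_lhs => rw [eq_X_add_C_of_natDegree_le_one hg]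
      simp
    show ee (g.eval ((x + (k : ℤ) : ℤ) : ℝ)) = ee (g.eval (x : ℝ)) * ee ((k : ℝ) * g.coeff 1)
    rw [← ee_add, ev, ev]
    congr 1
    push_cast
    ring
  | succ n ih =>
    intro g hg
    refine ⟨fun x => (norm_ee _).le, fun k k' => ?_⟩
    have h1 := ih (dif g k k') (dif_natDegree_le hg _ _)
    convert h1 using 2 with x
    rw [conj_ee, ← ee_add, dif_eval]
    congr 1
    push_cast
    ring

theorem small_poly {F : ℤ → ℂ} (hF : ∀ a, ‖F a‖ ≤ 1) (hB : Base F) (B : ℕ) {f : ℤ[X]} (hf : 1 ≤ f.natDegree) (n : ℕ) :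
    ∀ Q : ℤ[X], Q.natDegree = n + 1 → Q.natDegree ≤ f.natDegree →
      Small F (fun x => f.eval x) f.natDegree B (fun x => Q.eval x) (Ph n) := by
  have hfg : Gr f.natDegree (fun x => f.eval x) := gr_poly hf le_rfl
  obtain ⟨e, he⟩ : ∃ e, f.natDegree = e + 1 := ⟨f.natDegree - 1, by omega⟩
  have hcnt : Cnt f.natDegree (fun x => f.eval x) := by
    have := cnt_poly he
    rwa [← he] at this
  induction n with
  | zero =>
    intro Q hQ _
    have hc : Q.coeff 1 ≠ 0 := by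
      rw [← zero_add 1, ← hQ]
      exact leadingCoeff_ne_zero.2 (fun h => by rw [h] at hQ; simp at hQ)
    refine lin hF hB hf hcnt (rng_poly le_rfl) hc (fun x k => ?_)
    have ev : ∀ y : ℤ, Q.eval y = Q.coeff 1 * y + Q.coeff 0 := by
      intro y
      conv_lhs => rw [eq_X_add_C_of_natDegree_le_one (by omega : Q.natDegree ≤ 1)]
      simp
    rw [ev, ev]
    ring
  | succ n ih =>
    intro Q hQ hQd
    refine step hF hfg (gr_poly hf hQd) (Φ := Ph n) (fun φ hφ => hφ.le) (fun φ hφ => Ph.le (n := n + 1) hφ) (fun φ hφ => hφ.2) ?_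
    intro k k' hk
    have h1 : (dif Q (k : ℤ) (k' : ℤ)).natDegree = n + 1 := dif_natDegree_eq hQ (by exact_mod_cast hk)
    have h2 := ih (dif Q (k : ℤ) (k' : ℤ)) h1 (by omega)
    convert h2 using 2 with x
    rw [dif_eval]

end Pool.Agent.TH893.PC
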