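import Pool.Agent.TH893.PC.Main

/-!
# Short intervals of arguments
-/

set_option autoImplicit false

namespace Pool.Agent.TH893.PC

open Finset Polynomial
open Pool.Agent.H807R2.Dav (ee norm_ee ee_add ee_int ee_pow ee_zero)

/-- short sums, first moment over the position and the constant term -/
theorem short {F : ℤ → ℂ} (hF : ∀ a, ‖F a‖ ≤ 1) (hB : Base F) (B : ℕ) {f : ℤ[X]} (hf : 1 ≤ f.natDegree) {ε : ℝ} (hε : 0 < ε) :
    ∃ C K₀ N₀ : ℕ, ∀ N : ℕ, N₀ ≤ N → ∀ K : ℕ, K₀ ≤ K → K ≤ N → ∀ H : ℕ, C * N ^ (f.natDegree - 1) ≤ H →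
      H ≤ B * N ^ f.natDegree → ∀ M : ℤ, |M| ≤ B * N ^ f.natDegree → ∀ g : ℝ[X], g.natDegree ≤ f.natDegree →
      ∑ i ∈ Icc 1 H, ∑ x ∈ Icc 1 N, ‖∑ k ∈ Icc 1 K, ee (g.eval (((x : ℤ) + (k : ℤ) : ℤ) : ℝ)) *
        F (f.eval ((x : ℤ) + (k : ℤ)) + M + (i : ℤ))‖ ≤ ε * K * N * H := by
  obtain ⟨e, he⟩ : ∃ e, f.natDegree = e + 1 := ⟨f.natDegree - 1, by omega⟩
  obtain ⟨η, hη⟩ : ∃ η : ℝ, η = ε / 4 := ⟨_, rfl⟩
  have hη0 : 0 < η := by rw [hη]; positivity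
  obtain ⟨K₀, h0⟩ := small_poly hF hB B hf e f he le_rfl (η ^ 2) (by positivity)
  obtain ⟨L, hL⟩ : ∃ L, L = K₀ + 1 := ⟨_, rfl⟩
  have hL1 : 1 ≤ L := by omega
  have hL0 : (0 : ℝ) < L := by exact_mod_cast hL1
  obtain ⟨C, N₁, h1⟩ := h0 L (by omega)
  refine ⟨C * 2 ^ (f.natDegree - 1), ⌈(2 * (L : ℝ)) / η⌉₊ + 1, N₁ + 1, fun N hN K hK hKN H hH hHB M hM g hg => ?_⟩
  have hN1 : 1 ≤ N := by omega
  have hN0 : (1 : ℝ) ≤ N := by exact_mod_cast hN1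
  have hKL : 2 * (L : ℝ) ≤ η * K := by
    have e1 : 2 * (L : ℝ) / η ≤ K := (Nat.le_ceil _).trans (by exact_mod_cast (by omega : ⌈2 * (L : ℝ) / η⌉₊ ≤ K))
    rw [div_le_iff₀ hη0] at e1
    linarith
  have hpow : N ^ f.natDegree ≤ (2 * N) ^ f.natDegree := Nat.pow_le_pow_left (by omega) _
  have hJ := h1 (2 * N) (by omega) H (by rw [mul_pow, ← mul_assoc]; exact hH) (hHB.trans (Nat.mul_le_mul_left _ hpow)) M
    (hM.trans (by exact_mod_cast Nat.mul_le_mul_left B hpow)) (fun x : ℤ => ee (g.eval (x : ℝ))) (ph_poly e g (by omega))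
  have hH0 : (0 : ℝ) ≤ H := Nat.cast_nonneg _
  have hK0 : (0 : ℝ) ≤ K := Nat.cast_nonneg _
  obtain ⟨A, hA⟩ : ∃ A : ℕ → ℕ → ℝ, A = fun (i x : ℕ) => ‖V F L (fun x : ℤ => f.eval x) (fun x : ℤ => ee (g.eval (x : ℝ))) (x : ℤ) (f.eval (x : ℤ) + M + (i : ℤ))‖ :=
    ⟨_, rfl⟩
  have hA0 : ∀ i x, 0 ≤ A i x := fun i x => by rw [hA]; positivity
  have hL1' : ∑ i ∈ Icc 1 H, ∑ x ∈ Icc 1 (2 * N), A i x ≤ 2 * η * L * N * H := by
    have e1 : ∀ i x : ℕ, A i x ≤ A i x ^ 2 / (2 * η * L) + η * L / 2 := by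
      intro i x
      have e2 : A i x ^ 2 / (2 * η * L) + η * L / 2 - A i x = (A i x - η * L) ^ 2 / (2 * η * L) := by
        field_simp
        ring
      have e3 : 0 ≤ (A i x - η * L) ^ 2 / (2 * η * L) := by positivity
      linarith
    refine (sum_le_sum fun i _ => sum_le_sum fun x _ => e1 i x).trans ?_
    simp only [sum_add_distrib, sum_const, Nat.card_Icc, Nat.add_sub_cancel, nsmul_eq_mul, ← sum_div]
    have e4 : ∑ i ∈ Icc 1 H, ∑ x ∈ Icc 1 (2 * N), A i x ^ 2 =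
        J F (fun x : ℤ => f.eval x) M (2 * N) H L (fun x : ℤ => f.eval x) (fun x : ℤ => ee (g.eval (x : ℝ))) := by
      rw [sum_comm, hA]
      rfl
    rw [e4]
    have e5 : J F (fun x : ℤ => f.eval x) M (2 * N) H L (fun x : ℤ => f.eval x) (fun x : ℤ => ee (g.eval (x : ℝ))) / (2 * η * L) ≤
        η * L * N * H := by
      rw [div_le_iff₀ (by positivity)]
      refine hJ.trans (le_of_eq ?_)
      push_cast
      ring
    push_cast
    nlinarith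
  have hone : ∀ i ∈ Icc 1 H, ∑ x ∈ Icc 1 N, ‖∑ k ∈ Icc 1 K, ee (g.eval (((x : ℤ) + (k : ℤ) : ℤ) : ℝ)) *
        F (f.eval ((x : ℤ) + (k : ℤ)) + M + (i : ℤ))‖ ≤ K / L * ∑ x ∈ Icc 1 (2 * N), A i x + 2 * L * N := by
    intro i _
    obtain ⟨a, ha⟩ : ∃ a : ℤ → ℂ, a = fun x : ℤ => ee (g.eval (x : ℝ)) * F (f.eval x + M + (i : ℤ)) := ⟨_, rfl⟩
    have ha1 : ∀ x, ‖a x‖ ≤ 1 := by
      intro x
      rw [ha]
      simp only
      rw [norm_mul, norm_ee, one_mul]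
      exact hF _
    have hV : ∀ x : ℕ, A i x = ‖∑ l ∈ range L, a ((x : ℤ) + (l : ℤ))‖ := by
      intro x
      rw [ha, hA]
      unfold V
      simp only
      congr 1
      refine sum_congr rfl fun k _ => ?_
      congr 2
      ring
    have e1 : ∀ x ∈ Icc 1 N, ‖∑ k ∈ Icc 1 K, a ((x : ℤ) + (k : ℤ))‖ ≤ 1 / L * ∑ k ∈ Icc 1 K, A i (x + k) + 2 * L := by
      intro x _
      have e2 : ∀ l ∈ range L, ‖∑ k ∈ Icc 1 K, a ((x : ℤ) + l + (k : ℤ)) - ∑ k ∈ Icc 1 K, a ((x : ℤ) + (k : ℤ))‖ ≤ 2 * L := by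
        intro l hl
        have e3 := shift_nat a ha1 K (x : ℤ) l
        refine e3.trans ?_
        have e4 : (l : ℝ) ≤ L := by exact_mod_cast (mem_range.1 hl).le
        linarith
      have e3 : (L : ℂ) * ∑ k ∈ Icc 1 K, a ((x : ℤ) + (k : ℤ)) = ∑ l ∈ range L, ∑ k ∈ Icc 1 K, a ((x : ℤ) + l + (k : ℤ)) -
          ∑ l ∈ range L, (∑ k ∈ Icc 1 K, a ((x : ℤ) + l + (k : ℤ)) - ∑ k ∈ Icc 1 K, a ((x : ℤ) + (k : ℤ))) := by
        rw [sum_sub_distrib, sum_const, card_range, nsmul_eq_mul]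
        ring
      have e4 : (L : ℝ) * ‖∑ k ∈ Icc 1 K, a ((x : ℤ) + (k : ℤ))‖ ≤ ∑ k ∈ Icc 1 K, A i (x + k) + L * (2 * L) := by
        have e5 : (L : ℝ) * ‖∑ k ∈ Icc 1 K, a ((x : ℤ) + (k : ℤ))‖ = ‖(L : ℂ) * ∑ k ∈ Icc 1 K, a ((x : ℤ) + (k : ℤ))‖ := by
          rw [norm_mul, Complex.norm_natCast]
        rw [e5, e3]
        refine (norm_sub_le _ _).trans (add_le_add ?_ ?_)
        · rw [sum_comm]
          refine (norm_sum_le _ _).trans (sum_le_sum fun k _ => ?_)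
          rw [hV]
          refine le_of_eq ?_
          congr 1
          refine sum_congr rfl fun l _ => ?_
          congr 1
          push_cast
          ring
        · refine (norm_sum_le _ _).trans ((sum_le_sum e2).trans (le_of_eq ?_))
          rw [sum_const, card_range, nsmul_eq_mul]
      have e6 : ‖∑ k ∈ Icc 1 K, a ((x : ℤ) + (k : ℤ))‖ ≤ (∑ k ∈ Icc 1 K, A i (x + k) + L * (2 * L)) / L := by
        rw [le_div_iff₀ hL0]
        linarith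
      refine e6.trans (le_of_eq ?_)
      field_simp
    have e2 : ∑ x ∈ Icc 1 N, ‖∑ k ∈ Icc 1 K, ee (g.eval (((x : ℤ) + (k : ℤ) : ℤ) : ℝ)) *
        F (f.eval ((x : ℤ) + (k : ℤ)) + M + (i : ℤ))‖ = ∑ x ∈ Icc 1 N, ‖∑ k ∈ Icc 1 K, a ((x : ℤ) + (k : ℤ))‖ := by
      rw [ha]
    rw [e2]
    refine (sum_le_sum e1).trans ?_
    rw [sum_add_distrib, ← mul_sum, sum_comm, sum_const, Nat.card_Icc, Nat.add_sub_cancel, nsmul_eq_mul]
    have e3 : ∀ k ∈ Icc 1 K, ∑ x ∈ Icc 1 N, A i (x + k) ≤ ∑ x ∈ Icc 1 (2 * N), A i x := by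
      intro k hk
      have hk1 := mem_Icc.1 hk
      rw [← sum_image (f := fun y => A i y) (g := fun x => x + k) (fun x _ y _ hxy => by
        have : x + k = y + k := hxy
        omega)]
      refine sum_le_sum_of_subset_of_nonneg ?_ fun _ _ _ => hA0 _ _
      intro y hy
      obtain ⟨x, hx, rfl⟩ := mem_image.1 hy
      have := mem_Icc.1 hx
      exact mem_Icc.2 (by omega)
    have e4 := sum_le_sum e3
    rw [sum_const, Nat.card_Icc, Nat.add_sub_cancel, nsmul_eq_mul] at e4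
    have e5 : 1 / (L : ℝ) * ∑ k ∈ Icc 1 K, ∑ x ∈ Icc 1 N, A i (x + k) ≤ 1 / L * (K * ∑ x ∈ Icc 1 (2 * N), A i x) :=
      mul_le_mul_of_nonneg_left e4 (by positivity)
    have e6 : 1 / (L : ℝ) * (K * ∑ x ∈ Icc 1 (2 * N), A i x) = K / L * ∑ x ∈ Icc 1 (2 * N), A i x := by ring
    linarith
  refine (sum_le_sum hone).trans ?_
  rw [sum_add_distrib, ← mul_sum, sum_const, Nat.card_Icc, Nat.add_sub_cancel, nsmul_eq_mul]
  have e1 : (K : ℝ) / L * ∑ i ∈ Icc 1 H, ∑ x ∈ Icc 1 (2 * N), A i x ≤ K / L * (2 * η * L * N * H) :=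
    mul_le_mul_of_nonneg_left hL1' (by positivity)
  have e2 : (K : ℝ) / L * (2 * η * L * N * H) = 2 * η * K * N * H := by field_simp
  have e3 : (H : ℝ) * (2 * L * N) ≤ η * K * N * H := by
    have := mul_le_mul_of_nonneg_left hKL (by positivity : (0 : ℝ) ≤ N * H)
    nlinarith
  have e4 : 0 ≤ η * K * N * H := by positivity
  have e5 : ε * K * N * H = 4 * (η * K * N * H) := by rw [hη]; ring
  nlinarith

end Pool.Agent.TH893.PC
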